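import Mathlib

set_option autoImplicit false

/-! # Minkowski's theorem for three linear forms (octahedron), and good approximations -/

open Filter Topology Matrix MeasureTheory

namespace Pool.Agent.KS6_31

/-- Minkowski's theorem for octahedra. -/
theorem mink {d : ℕ} (hd : 0 < d) (h : Matrix (Fin d) (Fin d) ℝ) (hdet : h.det ≠ 0) (r : ℝ)
    (hr : 0 < r) (hvol : (d.factorial : ℝ) * |h.det| < r ^ d) :
    ∃ m : Fin d → ℤ, m ≠ 0 ∧ ∑ i, |(h *ᵥ (fun j => (m j : ℝ))) i| < r := by
  classical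
  have : Nonempty (Fin d) := ⟨⟨0, hd⟩⟩
  have hli : LinearIndependent ℝ (fun j => hᵀ j) :=
    Matrix.linearIndependent_rows_of_det_ne_zero (by rwa [det_transpose])
  let b : Module.Basis (Fin d) ℝ (Fin d → ℝ) :=
    basisOfLinearIndependentOfCardEqFinrank hli (by simp)
  have hb : ∀ j, b j = hᵀ j := fun j => by
    simp [b, basisOfLinearIndependentOfCardEqFinrank]
  have hbm : Matrix.of (fun j => b j) = hᵀ := by
    ext j i
    rw [Matrix.of_apply, hb]
  have hF : volume (ZSpan.fundamentalDomain b) = ENNReal.ofReal |h.det| := by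
    rw [ZSpan.volume_fundamentalDomain]
    congr 2
    rw [← det_transpose h, ← hbm]
  set s : Set (Fin d → ℝ) := {x | ∑ i, |x i| < r} with hs
  have hsvol : volume s = ENNReal.ofReal r ^ d * ENNReal.ofReal (2 ^ d / d.factorial) := by
    have h1 := MeasureTheory.volume_sum_rpow_lt (Fin d) (p := 1) le_rfl r
    have h2 : {x : Fin d → ℝ | (∑ i, |x i| ^ (1 : ℝ)) ^ (1 / (1 : ℝ)) < r} = s := by
      ext x
      simp [hs]
    rw [h2] at h1
    rw [h1, Fintype.card_fin]
    congr 2
    have h3 : Real.Gamma (1 / 1 + 1) = 1 := by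
      have : (1 / 1 + 1 : ℝ) = ((1 : ℕ) : ℝ) + 1 := by norm_num
      rw [this, Real.Gamma_nat_eq_factorial]
      simp
    have h4 : Real.Gamma ((d : ℝ) / 1 + 1) = d.factorial := by
      rw [div_one, Real.Gamma_nat_eq_factorial]
    rw [h3, h4, mul_one]
  have hlt : volume (ZSpan.fundamentalDomain b) * 2 ^ Module.finrank ℝ (Fin d → ℝ) < volume s := by
    rw [hF, hsvol, Module.finrank_fin_fun]
    have e2 : (2 : ENNReal) ^ d = ENNReal.ofReal (2 ^ d) := by
      rw [ENNReal.ofReal_pow (by norm_num)]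
      norm_num
    rw [e2, ← ENNReal.ofReal_mul (abs_nonneg _), ← ENNReal.ofReal_pow hr.le,
      ← ENNReal.ofReal_mul (by positivity), ENNReal.ofReal_lt_ofReal_iff (by positivity)]
    have hfac : (0 : ℝ) < d.factorial := by positivity
    rw [mul_div_assoc', lt_div_iff₀ hfac]
    have h2d : (0 : ℝ) < 2 ^ d := by positivity
    nlinarith [mul_lt_mul_of_pos_right hvol h2d]
  have hsymm : ∀ x ∈ s, -x ∈ s := by
    intro x hx
    simp only [hs, Set.mem_ofPred_eq, Pi.neg_apply, abs_neg] at hx ⊢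
    exact hx
  have hconv : Convex ℝ s := by
    have h1 : ConvexOn ℝ Set.univ (fun x : Fin d → ℝ => ∑ i, |x i|) := by
      refine ⟨convex_univ, fun x _ y _ a b ha hb hab => ?_⟩
      simp only [smul_eq_mul, Pi.add_apply, Pi.smul_apply]
      rw [Finset.mul_sum, Finset.mul_sum, ← Finset.sum_add_distrib]
      refine Finset.sum_le_sum fun i _ => ?_
      refine (abs_add_le _ _).trans ?_
      rw [abs_mul, abs_mul, abs_of_nonneg ha, abs_of_nonneg hb]
    have h2 := h1.convex_lt r
    have h3 : {x ∈ (Set.univ : Set (Fin d → ℝ)) | ∑ i, |x i| < r} = s := by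
      ext x; simp [hs]
    rwa [h3] at h2
  have hcount : Countable ↥(Submodule.span ℤ (Set.range ⇑b)).toAddSubgroup := by
    have hsurj : Function.Surjective (fun m : Fin d → ℤ =>
        (⟨∑ j, m j • b j, (Submodule.mem_span_range_iff_exists_fun ℤ).2 ⟨m, rfl⟩⟩ :
          ↥(Submodule.span ℤ (Set.range ⇑b)).toAddSubgroup)) := by
      intro x
      obtain ⟨m, hm⟩ := (Submodule.mem_span_range_iff_exists_fun ℤ).1 x.2
      exact ⟨m, Subtype.ext hm⟩
    exact hsurj.countable
  obtain ⟨x, hx0, hxs⟩ := exists_ne_zero_mem_lattice_of_measure_mul_two_pow_lt_measure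
    (ZSpan.isAddFundamentalDomain' b volume) hsymm hconv hlt
  obtain ⟨m, hm⟩ := (Submodule.mem_span_range_iff_exists_fun ℤ).1 x.2
  have hmx : h *ᵥ (fun j => (m j : ℝ)) = (x : Fin d → ℝ) := by
    rw [← hm]
    funext i
    simp only [mulVec, dotProduct, Finset.sum_apply, Pi.smul_apply, zsmul_eq_mul, hb,
      transpose_apply]
    exact Finset.sum_congr rfl fun j _ => mul_comm _ _
  refine ⟨m, ?_, ?_⟩
  · rintro rfl
    apply hx0
    apply Subtype.ext
    rw [← hmx]
    have : (fun j : Fin d => (((0 : Fin d → ℤ) j : ℤ) : ℝ)) = 0 := by funext i; simp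
    rw [this, mulVec_zero]
    rfl
  · rw [hmx]
    exact hxs

/-- Three forms `q`, `α q - p`, `(β q - r) + κ (α q - p)` with weights `A`, `B`, `D`. -/
theorem exists_point (α β κ A B D : ℝ) (hA : 0 < A) (hB : 0 < B) (hD : 0 < D)
    (h : 6 < A * B * D) :
    ∃ q p r : ℤ, ¬ (q = 0 ∧ p = 0 ∧ r = 0) ∧
      |(q : ℝ)| / A + |α * q - p| / B + |(β * q - r) + κ * (α * q - p)| / D < 1 := by
  set M : Matrix (Fin 3) (Fin 3) ℝ :=
    !![1 / A, 0, 0; α / B, -1 / B, 0; (β + κ * α) / D, -κ / D, -1 / D] with hM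
  have hdet : M.det = 1 / (A * B * D) := by
    rw [hM, Matrix.det_fin_three]
    simp
    field_simp
  have hABD : 0 < A * B * D := by positivity
  obtain ⟨m, hm0, hm⟩ := mink (d := 3) (by norm_num) M (by rw [hdet]; positivity) 1 one_pos (by
    rw [hdet, abs_of_pos (by positivity)]
    have : ((3 : ℕ).factorial : ℝ) = 6 := by norm_num [Nat.factorial]
    rw [this, one_pow, mul_one_div, div_lt_one hABD]
    exact h)
  refine ⟨m 0, m 1, m 2, ?_, ?_⟩
  · rintro ⟨h0, h1, h2⟩
    apply hm0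
    funext i
    fin_cases i <;> simp [h0, h1, h2]
  · rw [Fin.sum_univ_three] at hm
    have e0 : (M *ᵥ (fun j => (m j : ℝ))) 0 = (m 0 : ℝ) / A := by
      simp [hM, Matrix.mulVec, dotProduct, Fin.sum_univ_three]
      ring
    have e1 : (M *ᵥ (fun j => (m j : ℝ))) 1 = (α * m 0 - m 1) / B := by
      simp [hM, Matrix.mulVec, dotProduct, Fin.sum_univ_three]
      ring
    have e2 : (M *ᵥ (fun j => (m j : ℝ))) 2 =
        ((β * m 0 - m 2) + κ * (α * m 0 - m 1)) / D := by
      simp [hM, Matrix.mulVec, dotProduct, Fin.sum_univ_three]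
      ring
    rw [e0, e1, e2, abs_div, abs_div, abs_div, abs_of_pos hA, abs_of_pos hB, abs_of_pos hD] at hm
    exact hm

end Pool.Agent.KS6_31
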