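import Pool.Agent.KS6_31.NA1

set_option autoImplicit false

namespace Pool.Agent.KS6_31.NA

open Finset Classical Pool.Agent.H.MP_5d5585_co

/-- `boxes`: number of ordered pairs of `X` whose coordinates all differ by at most `δ`. -/
noncomputable def bx {m : ℕ} (X : Finset (EuclideanSpace ℝ (Fin (m + 1)))) (δ : ℝ) : ℝ :=
  (((univ : Finset (X × X)).filter fun q => ∀ l, |q.1.1 l - q.2.1 l| ≤ δ).card : ℝ)

lemma bx_le (m : ℕ) (X : Finset (EuclideanSpace ℝ (Fin (m + 1)))) {ε₁ : ℝ} (h0 : 0 < ε₁) :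
    bx X (ε₁ / (m + 1)) ≤ ((X ×ˢ X).filter (fun p => dist p.1 p.2 ≤ ε₁)).card := by
  have hm : (0 : ℝ) ≤ m := Nat.cast_nonneg _
  rw [bx, Nat.cast_le]
  refine card_le_card_of_injOn (fun q => (q.1.1, q.2.1)) (fun q hq => ?_) fun q _ q' _ h => ?_
  · have hq2 := (mem_filter.mp hq).2
    rw [mem_coe, mem_filter, mem_product]
    refine ⟨⟨q.1.2, q.2.2⟩, ?_⟩
    rw [dist_eq_norm]
    refine le_of_sq_le_sq ?_ h0.le
    rw [EuclideanSpace.real_norm_sq_eq]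
    calc _ ≤ ∑ _l : Fin (m + 1), (ε₁ / (m + 1)) ^ 2 := sum_le_sum fun l _ => by
          rw [← sq_abs]; exact pow_le_pow_left₀ (abs_nonneg _) (hq2 l) 2
      _ = ε₁ ^ 2 / (m + 1) := by simp; field_simp
      _ ≤ _ := div_le_self (by positivity) (by linarith)
  · exact Prod.ext (Subtype.ext (congrArg Prod.fst h)) (Subtype.ext (congrArg Prod.snd h))

lemma half (m : ℕ) (X Y : Finset (EuclideanSpace ℝ (Fin (m + 1)))) {ε₁ ε : ℝ} (h0 : 0 < ε₁)
    (h1 : ε₁ ≤ ε) (h3 : ε < 1) (hX : ∀ x ∈ X, ∀ y ∈ Y, dist x y ≤ 1) (c : Fin (m + 1)) :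
    (((univ : Finset (X × Y)).filter fun q => 1 - ε ≤ ‖q.1.1 - q.2.1‖ ∧
      ∀ l, |q.1.1 l - q.2.1 l| ≤ q.1.1 c - q.2.1 c).card : ℝ) ≤
      ((16 * ((2 * m + 8) * (7 * (m + 1) ^ 2))) ^ m * ((2 * m + 3) * (7 * (m + 1) ^ 2))) *
        ((√ε / ε₁) ^ m * (ε / ε₁)) * √(bx X (ε₁ / (m + 1)) * bx Y (ε₁ / (m + 1))) := by
  have hm : (0 : ℝ) ≤ m := Nat.cast_nonneg _
  have hε : 0 < ε := h0.trans_le h1
  have hδ : 0 < ε₁ / (m + 1) := by positivity
  have hδ1 : ε₁ / (m + 1) ≤ ε₁ := div_le_self h0.le (by linarith)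
  rcases X.eq_empty_or_nonempty with rfl | ⟨a0, ha0⟩
  · rw [card_eq_zero.mpr]
    · rw [Nat.cast_zero]; positivity
    · refine filter_eq_empty_iff.mpr fun q _ => ?_
      exact absurd q.1.2 (notMem_empty _)
  rcases Y.eq_empty_or_nonempty with rfl | ⟨b0, hb0⟩
  · rw [card_eq_zero.mpr]
    · rw [Nat.cast_zero]; positivity
    · refine filter_eq_empty_iff.mpr fun q _ => ?_
      exact absurd q.2.2 (notMem_empty _)
  have key := chart2 (fun a : X => a.1) (fun b : Y => b.1) ⟨a0, ha0⟩ ⟨b0, hb0⟩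
    (fun a b => by rw [← dist_eq_norm]; exact hX _ a.2 _ b.2) c hδ (hδ1.trans h1) h3
  have e1 : PP (fun (a : X) l => a.1 (c.succAbove l)) (fun a => a.1 c) (ε₁ / (m + 1)) =
      bx X (ε₁ / (m + 1)) := by
    simp only [PP, bx, Fin.forall_iff_succAbove c, and_comm]
  have e3 : PP (fun (a : Y) l => a.1 (c.succAbove l)) (fun a => a.1 c) (ε₁ / (m + 1)) =
      bx Y (ε₁ / (m + 1)) := by
    simp only [PP, bx, Fin.forall_iff_succAbove c, and_comm]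
  have e2 : 16 * ((2 * m + 8) * (7 * (m + 1) * ε) / (ε₁ / (m + 1) * √ε)) =
      16 * ((2 * m + 8) * (7 * (m + 1) ^ 2)) * (√ε / ε₁) := by
    have := Real.sqrt_pos.mpr hε
    have h5 := Real.mul_self_sqrt hε.le
    generalize √ε = s at *
    rw [← h5]
    field_simp
  have e4 : ((2 * m + 3) * (7 * (m + 1) * ε) / (ε₁ / (m + 1)) : ℝ) =
      (2 * m + 3) * (7 * (m + 1) ^ 2) * (ε / ε₁) := by
    field_simp
  rw [e1, e2, e3, e4, mul_pow _ (√ε / ε₁)] at key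
  refine le_of_sq_le_sq (key.trans (le_of_eq ?_)) (by positivity)
  have hs := Real.sq_sqrt (mul_nonneg (Nat.cast_nonneg _ : (0 : ℝ) ≤ _) (Nat.cast_nonneg _) :
    0 ≤ bx X (ε₁ / (m + 1)) * bx Y (ε₁ / (m + 1)))
  rw [mul_pow _ (√(bx X (ε₁ / (m + 1)) * bx Y (ε₁ / (m + 1)))), hs]
  ring

lemma cross (m : ℕ) (X Y : Finset (EuclideanSpace ℝ (Fin (m + 1)))) {ε₁ ε₂ ε : ℝ} (h0 : 0 < ε₁)
    (h1 : ε₁ ≤ ε) (h2 : ε₂ ≤ ε) (h3 : ε < 1) (hX : ∀ x ∈ X, ∀ y ∈ Y, dist x y ≤ 1) :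
    (((X ×ˢ Y).filter (fun p => 1 - ε₂ ≤ dist p.1 p.2)).card : ℝ) ≤
      2 * (m + 1) * ((16 * ((2 * m + 8) * (7 * (m + 1) ^ 2))) ^ m * ((2 * m + 3) * (7 * (m + 1) ^ 2))) *
        ((√ε / ε₁) ^ m * (ε / ε₁)) *
        √(((X ×ˢ X).filter (fun p => dist p.1 p.2 ≤ ε₁)).card *
          ((Y ×ˢ Y).filter (fun p => dist p.1 p.2 ≤ ε₁)).card) := by
  have hm : (0 : ℝ) ≤ m := Nat.cast_nonneg _
  have hε : 0 < ε := h0.trans_le h1
  let T : Fin (m + 1) → Finset (X × Y) := fun c => univ.filter fun q =>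
    1 - ε ≤ ‖q.1.1 - q.2.1‖ ∧ ∀ l, |q.1.1 l - q.2.1 l| ≤ q.1.1 c - q.2.1 c
  let T' : Fin (m + 1) → Finset (Y × X) := fun c => univ.filter fun q =>
    1 - ε ≤ ‖q.1.1 - q.2.1‖ ∧ ∀ l, |q.1.1 l - q.2.1 l| ≤ q.1.1 c - q.2.1 c
  have hle : √(bx X (ε₁ / (m + 1)) * bx Y (ε₁ / (m + 1))) ≤
      √(((X ×ˢ X).filter (fun p => dist p.1 p.2 ≤ ε₁)).card *
          ((Y ×ˢ Y).filter (fun p => dist p.1 p.2 ≤ ε₁)).card) :=
    Real.sqrt_le_sqrt (mul_le_mul (bx_le m X h0) (bx_le m Y h0) (Nat.cast_nonneg _)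
      (Nat.cast_nonneg _))
  have t1 : ∀ c, ((T c).card : ℝ) ≤ ((16 * ((2 * m + 8) * (7 * (m + 1) ^ 2))) ^ m *
      ((2 * m + 3) * (7 * (m + 1) ^ 2))) * ((√ε / ε₁) ^ m * (ε / ε₁)) *
      √(((X ×ˢ X).filter (fun p => dist p.1 p.2 ≤ ε₁)).card *
          ((Y ×ˢ Y).filter (fun p => dist p.1 p.2 ≤ ε₁)).card) := fun c =>
    (half m X Y h0 h1 h3 hX c).trans (mul_le_mul_of_nonneg_left hle (by positivity))
  have t1' : ∀ c, ((T' c).card : ℝ) ≤ ((16 * ((2 * m + 8) * (7 * (m + 1) ^ 2))) ^ m *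
      ((2 * m + 3) * (7 * (m + 1) ^ 2))) * ((√ε / ε₁) ^ m * (ε / ε₁)) *
      √(((X ×ˢ X).filter (fun p => dist p.1 p.2 ≤ ε₁)).card *
          ((Y ×ˢ Y).filter (fun p => dist p.1 p.2 ≤ ε₁)).card) := fun c => by
    refine (half m Y X h0 h1 h3 (fun x hx y hy => by rw [dist_comm]; exact hX y hy x hx) c).trans
      (mul_le_mul_of_nonneg_left ?_ (by positivity))
    rw [mul_comm]; exact hle
  have t2 : (X ×ˢ Y).filter (fun p => 1 - ε₂ ≤ dist p.1 p.2) ⊆ univ.biUnion fun c =>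
      (T c).image (fun q => (q.1.1, q.2.1)) ∪ (T' c).image (fun q => (q.2.1, q.1.1)) := by
    rintro ⟨u, v⟩ hp
    obtain ⟨hp1, hp2⟩ := mem_filter.mp hp
    obtain ⟨hu, hv⟩ := mem_product.mp hp1
    obtain ⟨c, -, hc⟩ := exists_max_image univ (fun l => |u l - v l|) univ_nonempty
    refine mem_biUnion.mpr ⟨c, mem_univ _, mem_union.mpr ?_⟩
    rw [dist_eq_norm] at hp2
    simp only at hu hv hp2
    rcases le_total 0 (u c - v c) with h | h
    · refine Or.inl (mem_image.mpr ⟨(⟨u, hu⟩, ⟨v, hv⟩), mem_filter.mpr ⟨mem_univ _,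
        by simp only; linarith, fun l => ?_⟩, rfl⟩)
      exact (hc l (mem_univ _)).trans (abs_of_nonneg h).le
    · refine Or.inr (mem_image.mpr ⟨(⟨v, hv⟩, ⟨u, hu⟩), mem_filter.mpr ⟨mem_univ _,
        by simp only; rw [norm_sub_rev]; linarith, fun l => ?_⟩, rfl⟩)
      have := (hc l (mem_univ _)).trans (abs_of_nonpos h).le
      simp only
      rw [abs_sub_comm]
      linarith
  have t3 := (card_le_card t2).trans (card_biUnion_le.trans (sum_le_sum fun c _ =>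
    (card_union_le _ _).trans (add_le_add card_image_le card_image_le)))
  have t4 : (((X ×ˢ Y).filter (fun p => 1 - ε₂ ≤ dist p.1 p.2)).card : ℝ) ≤
      ∑ c, (((T c).card : ℝ) + (T' c).card) := by exact_mod_cast t3
  refine t4.trans ((sum_le_sum fun c _ => add_le_add (t1 c) (t1' c)).trans (le_of_eq ?_))
  rw [sum_const, card_univ, Fintype.card_fin, nsmul_eq_mul]
  push_cast
  ring

/-- Enough points force at least `|X|` (ordered) neighbouring pairs. -/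
lemma many (m : ℕ) (X : Finset (EuclideanSpace ℝ (Fin (m + 1)))) {ε₁ : ℝ} (h0 : 0 < ε₁)
    (h1 : ε₁ ≤ 1) (hX : ∀ x ∈ X, ∀ y ∈ X, dist x y ≤ 1)
    (hc : 2 * (3 * (m + 1) / ε₁) ^ (m + 1) ≤ X.card) :
    2 * (X.card : ℝ) ≤ ((X ×ˢ X).filter (fun p => dist p.1 p.2 ≤ ε₁)).card := by
  have hm : (0 : ℝ) ≤ m := Nat.cast_nonneg _
  have hδ : 0 < ε₁ / (m + 1) := by positivity
  have hδ1 : ε₁ / (m + 1) ≤ ε₁ := div_le_self h0.le (by linarith)
  have hn : (0 : ℝ) < X.card := lt_of_lt_of_le (by positivity) hc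
  obtain ⟨a0, ha0⟩ : X.Nonempty := card_pos.mp (by exact_mod_cast hn)
  refine le_trans ?_ (bx_le m X h0)
  have q2 : (X.card : ℝ) ^ 2 ≤ (3 * (m + 1) / ε₁) ^ (m + 1) * bx X (ε₁ / (m + 1)) := by
    have hr : ∀ (a : X) l, 0 ≤ a.1 l - a0 l + 1 ∧ a.1 l - a0 l + 1 ≤ 2 := fun a l => by
      have h0 : ‖a.1 - a0‖ ≤ 1 := by rw [← dist_eq_norm]; exact hX _ a.2 _ ha0
      have h1 := (PiLp.norm_apply_le (a.1 - a0) l).trans h0
      rw [Real.norm_eq_abs, PiLp.sub_apply, abs_le] at h1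
      constructor <;> linarith
    have := CS (univ : Finset X) (fun a l => ⌊(a.1 l - a0 l + 1) / (ε₁ / (m + 1))⌋₊)
      (Fintype.piFinset fun _ => range (⌊2 / (ε₁ / (m + 1))⌋₊ + 1)) fun a _ =>
        Fintype.mem_piFinset.mpr fun l => mem_range.mpr (Nat.lt_succ_of_le (Nat.floor_mono
          (div_le_div_of_nonneg_right (hr a l).2 hδ.le)))
    rw [card_univ, Fintype.card_coe] at this
    refine this.trans (mul_le_mul ?_ (Nat.cast_le.mpr (card_le_card fun q hq => ?_))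
      (Nat.cast_nonneg _) (by positivity))
    · rw [Fintype.card_piFinset_const, card_range]
      push_cast
      refine pow_le_pow_left₀ (by positivity) ?_ _
      have i1 := Nat.floor_le (show 0 ≤ 2 / (ε₁ / (m + 1)) by positivity)
      have i2 : 1 ≤ 1 / (ε₁ / (m + 1)) := (one_le_div hδ).mpr (by linarith)
      calc _ ≤ 2 / (ε₁ / (m + 1)) + 1 / (ε₁ / (m + 1)) := by linarith
        _ = _ := by field_simp; norm_num
    · refine mem_filter.mpr ⟨mem_univ _, fun l => ?_⟩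
      have := fl_eq hδ (hr _ l).1 (hr _ l).1 (congrFun (mem_filter.mp hq).2 l)
      simpa using this
  refine le_of_mul_le_mul_left ?_ hn
  have : 0 ≤ bx X (ε₁ / (m + 1)) := Nat.cast_nonneg _
  nlinarith [mul_le_mul_of_nonneg_right hc this]

end Pool.Agent.KS6_31.NA
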