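import Mathlib

set_option autoImplicit false

/-! # Porous sets of integers, and blocks on which a polynomial sequence is regular -/

open Filter Topology Finset

namespace Pool.Agent.KS6_31

/-- concavity -/
lemma two_pow_bound {κ x y n : ℝ} (hκ : 0 < κ) (hκ2 : κ ≤ 1 / 2) (hx : 0 ≤ x) (hy : 0 ≤ y)
    (hn : 0 ≤ n) (h : x + y ≤ (1 - κ) * n) :
    x ^ (1 - κ / 2) + y ^ (1 - κ / 2) ≤ n ^ (1 - κ / 2) := by
  have hτ0 : 0 ≤ 1 - κ / 2 := by linarith
  have hτ1 : 1 - κ / 2 ≤ 1 := by linarith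
  have hc := (Real.concaveOn_rpow hτ0 hτ1).2
  have h1 := hc (Set.mem_Ici.2 hx) (Set.mem_Ici.2 hy) (show (0 : ℝ) ≤ 1 / 2 by norm_num)
    (show (0 : ℝ) ≤ 1 / 2 by norm_num) (by norm_num)
  simp only [smul_eq_mul] at h1
  have h2 : (1 / 2 * x + 1 / 2 * y) ^ (1 - κ / 2) ≤ ((1 - κ) / 2 * n) ^ (1 - κ / 2) := by
    apply Real.rpow_le_rpow (by positivity) (by linarith) hτ0
  rw [Real.mul_rpow (by linarith) hn] at h2
  have h3 : ((1 - κ) / 2) ^ (1 - κ / 2) ≤ 1 / 2 := by
    have hk : 0 < (1 - κ) / 2 := by linarith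
    rw [Real.rpow_def_of_pos hk]
    have h4 : Real.log ((1 - κ) / 2) * (1 - κ / 2) ≤ Real.log (1 / 2) := by
      have h5 : Real.log ((1 - κ) / 2) ≤ -κ - Real.log 2 := by
        rw [Real.log_div (by linarith) (by norm_num)]
        have := Real.log_le_sub_one_of_pos (show 0 < 1 - κ by linarith)
        linarith
      have h6 : Real.log (1 / 2) = - Real.log 2 := by
        rw [one_div, Real.log_inv]
      rw [h6]
      have h7 : Real.log 2 < 0.6931471808 := Real.log_two_lt_d9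
      have h8 : 0.6931471803 < Real.log 2 := Real.log_two_gt_d9
      have h9 : Real.log ((1 - κ) / 2) * (1 - κ / 2) ≤ (-κ - Real.log 2) * (1 - κ / 2) := by
        gcongr
      nlinarith
    calc Real.exp (Real.log ((1 - κ) / 2) * (1 - κ / 2)) ≤ Real.exp (Real.log (1 / 2)) :=
          Real.exp_le_exp.2 h4
      _ = 1 / 2 := Real.exp_log (by norm_num)
  have h4 : 0 ≤ n ^ (1 - κ / 2) := Real.rpow_nonneg hn _
  nlinarith

/-- A porous set of integers is sparse. -/
theorem porous_count (B : ℕ → Prop) [DecidablePred B] (κ : ℝ) (hκ : 0 < κ) (hκ2 : κ ≤ 1 / 2)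
    (h : ∀ a n : ℕ, 1 / κ ≤ n → ∃ a' n' : ℕ, a ≤ a' ∧ a' + n' ≤ a + n ∧ κ * n ≤ n' ∧
      ∀ i, a' ≤ i → i < a' + n' → ¬ B i) :
    ∀ n a : ℕ, (((Finset.Ico a (a + n)).filter B).card : ℝ) ≤ 2 * (n : ℝ) ^ (1 - κ / 2) := by
  have hK : (1 / κ) ^ (κ / 2) ≤ 2 := by
    have h1 : 0 < 1 / κ := by positivity
    rw [Real.rpow_def_of_pos h1]
    have h2 : Real.log (1 / κ) * (κ / 2) ≤ 1 / 2 := by
      have := Real.log_le_sub_one_of_pos h1
      have h3 : Real.log (1 / κ) ≤ 1 / κ := by linarith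
      have h4 : Real.log (1 / κ) * (κ / 2) ≤ 1 / κ * (κ / 2) := by gcongr
      have h5 : 1 / κ * (κ / 2) = 1 / 2 := by field_simp
      linarith
    calc Real.exp (Real.log (1 / κ) * (κ / 2)) ≤ Real.exp (1 / 2) := Real.exp_le_exp.2 h2
      _ ≤ 2 := by
        have h6 : Real.exp (1 / 2) ^ 2 = Real.exp 1 := by
          rw [← Real.exp_nat_mul]; norm_num
        have h7 := Real.exp_one_lt_d9
        have h8 := Real.exp_pos (1 / 2)
        nlinarith
  suffices H : ∀ n a : ℕ, (((Finset.Ico a (a + n)).filter B).card : ℝ) ≤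
      (1 / κ) ^ (κ / 2) * (n : ℝ) ^ (1 - κ / 2) by
    intro n a
    exact (H n a).trans (by gcongr)
  intro n
  induction n using Nat.strong_induction_on with
  | _ n ih =>
  intro a
  rcases Nat.eq_zero_or_pos n with rfl | hn
  · simp only [add_zero, Finset.Ico_self, Finset.filter_empty, Finset.card_empty, Nat.cast_zero]
    positivity
  have hnR : (0 : ℝ) < n := by exact_mod_cast hn
  rcases lt_or_ge (n : ℝ) (1 / κ) with hlt | hge
  · have h1 : (((Finset.Ico a (a + n)).filter B).card : ℝ) ≤ n := by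
      have := Finset.card_filter_le (Finset.Ico a (a + n)) B
      rw [Nat.card_Ico] at this
      have h2 : a + n - a = n := by omega
      rw [h2] at this
      exact_mod_cast this
    refine h1.trans ?_
    have h2 : (n : ℝ) = (n : ℝ) ^ (κ / 2) * (n : ℝ) ^ (1 - κ / 2) := by
      rw [← Real.rpow_add hnR]
      norm_num
    calc (n : ℝ) = (n : ℝ) ^ (κ / 2) * (n : ℝ) ^ (1 - κ / 2) := h2
      _ ≤ (1 / κ) ^ (κ / 2) * (n : ℝ) ^ (1 - κ / 2) := by
        gcongr
  · obtain ⟨a', n', ha', hn', hκn, hgood⟩ := h a n hge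
    have hn'0 : 0 < n' := by
      have : (0 : ℝ) < n' := lt_of_lt_of_le (by positivity) hκn
      exact_mod_cast this
    set n1 := a' - a with hn1
    set n2 := a + n - (a' + n') with hn2
    have e1 : a' = a + n1 := by omega
    have e2 : a' + n' + n2 = a + n := by omega
    have hsub : (Finset.Ico a (a + n)).filter B ⊆
        (Finset.Ico a (a + n1)).filter B ∪ (Finset.Ico (a' + n') (a' + n' + n2)).filter B := by
      intro i hi
      simp only [Finset.mem_filter, Finset.mem_union, Finset.mem_Ico] at hi ⊢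
      by_contra hcon
      have h1 : a' ≤ i := by
        by_contra h2
        exact hcon (Or.inl ⟨⟨hi.1.1, by omega⟩, hi.2⟩)
      have h2 : i < a' + n' := by
        by_contra h3
        exact hcon (Or.inr ⟨⟨by omega, by omega⟩, hi.2⟩)
      exact hgood i h1 h2 hi.2
    have hcard := (Finset.card_le_card hsub).trans (Finset.card_union_le _ _)
    have hc1 := ih n1 (by omega) a
    have hc2 := ih n2 (by omega) (a' + n')
    have hsum : (n1 : ℝ) + n2 ≤ (1 - κ) * n := by
      have : n1 + n' + n2 = n := by omega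
      have h3 : (n1 : ℝ) + n' + n2 = n := by exact_mod_cast this
      linarith
    have hpow := two_pow_bound hκ hκ2 (Nat.cast_nonneg n1) (Nat.cast_nonneg n2)
      (Nat.cast_nonneg n) hsum
    have hcardR : (((Finset.Ico a (a + n)).filter B).card : ℝ) ≤
        (((Finset.Ico a (a + n1)).filter B).card : ℝ) +
          (((Finset.Ico (a' + n') (a' + n' + n2)).filter B).card : ℝ) := by
      exact_mod_cast hcard
    have hpos : 0 ≤ (1 / κ) ^ (κ / 2) := by positivity
    calc (((Finset.Ico a (a + n)).filter B).card : ℝ)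
        ≤ (1 / κ) ^ (κ / 2) * (n1 : ℝ) ^ (1 - κ / 2) + (1 / κ) ^ (κ / 2) *
          (n2 : ℝ) ^ (1 - κ / 2) := by linarith
      _ = (1 / κ) ^ (κ / 2) * ((n1 : ℝ) ^ (1 - κ / 2) + (n2 : ℝ) ^ (1 - κ / 2)) := by ring
      _ ≤ (1 / κ) ^ (κ / 2) * (n : ℝ) ^ (1 - κ / 2) := by gcongr

/-- the difference of a sequence -/
def dif (f : ℕ → ℝ) (i : ℕ) : ℝ := f (i + 1) - f i

/-- `f` has constant sign and is constant up to a factor two on the block. -/
def Reg (f : ℕ → ℝ) (a n : ℕ) : Prop :=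
  ∃ D σ : ℝ, 0 < D ∧ (σ = 1 ∨ σ = -1) ∧ ∀ i, a ≤ i → i < a + n → D ≤ σ * f i ∧ σ * f i ≤ 2 * D

lemma growth {f : ℕ → ℝ} {a n : ℕ} {D E : ℝ}
    (h : ∀ i, a ≤ i → i < a + n → D ≤ f (i + 1) - f i ∧ f (i + 1) - f i ≤ E) :
    ∀ k i, a ≤ i → i + k ≤ a + n → D * k ≤ f (i + k) - f i ∧ f (i + k) - f i ≤ E * k := by
  intro k
  induction k with
  | zero => intro i _ _; simp
  | succ k ih =>
    intro i hi hk
    obtain ⟨h1, h2⟩ := ih i hi (by omega)
    obtain ⟨h3, h4⟩ := h (i + k) (by omega) (by omega)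
    have e : i + (k + 1) = i + k + 1 := by omega
    rw [e]
    push_cast
    constructor <;> nlinarith

lemma reg_step_pos {f : ℕ → ℝ} {a n : ℕ} {D : ℝ} (hD : 0 < D)
    (h : ∀ i, a ≤ i → i < a + n → D ≤ f (i + 1) - f i ∧ f (i + 1) - f i ≤ 2 * D) (hn : 2 ≤ n) :
    ∃ a' n', a ≤ a' ∧ a' + n' ≤ a + n ∧ n ≤ 16 * n' ∧ Reg f a' n' := by
  set m := n - 1 with hm
  have hm1 : 1 ≤ m := by omega
  have hmR : (1 : ℝ) ≤ m := by exact_mod_cast hm1
  set k := m / 8 with hk
  have hk8 : 8 * k ≤ m := by omega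
  have hkR : 8 * (k : ℝ) ≤ m := by exact_mod_cast hk8
  have hk16 : n ≤ 16 * (k + 1) := by omega
  have hg := growth h
  have htot := (hg m a le_rfl (by omega)).1
  rcases le_or_gt (D * m / 2) (f (a + m)) with hA | hA
  · refine ⟨a + m - k, k + 1, by omega, by omega, hk16, f (a + m) / 2, 1, by
      have : 0 < D * m / 2 := by positivity
      linarith, Or.inl rfl, ?_⟩
    intro i hi1 hi2
    have hi3 : i ≤ a + m := by omega
    obtain ⟨j, hj⟩ := Nat.exists_eq_add_of_le hi3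
    have hjk : j ≤ k := by omega
    have hjR : (j : ℝ) ≤ k := by exact_mod_cast hjk
    obtain ⟨h1, h2⟩ := hg j i (by omega) (by omega)
    rw [← hj] at h1 h2
    have hj0 : (0 : ℝ) ≤ j := Nat.cast_nonneg j
    constructor
    · nlinarith [mul_le_mul_of_nonneg_left hjR hD.le, mul_le_mul_of_nonneg_left hkR hD.le]
    · nlinarith [mul_nonneg hD.le hj0]
  · refine ⟨a, k + 1, le_rfl, by omega, hk16, - f a / 2, -1, by
      have : 0 < D * m / 2 := by positivity
      linarith, Or.inr rfl, ?_⟩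
    intro i hi1 hi2
    obtain ⟨j, hj⟩ := Nat.exists_eq_add_of_le hi1
    have hjk : j ≤ k := by omega
    have hjR : (j : ℝ) ≤ k := by exact_mod_cast hjk
    obtain ⟨h1, h2⟩ := hg j a le_rfl (by omega)
    rw [← hj] at h1 h2
    have hj0 : (0 : ℝ) ≤ j := Nat.cast_nonneg j
    constructor
    · nlinarith [mul_le_mul_of_nonneg_left hjR hD.le, mul_le_mul_of_nonneg_left hkR hD.le]
    · nlinarith [mul_nonneg hD.le hj0]

lemma reg_neg {f : ℕ → ℝ} {a n : ℕ} (h : Reg (fun i => - f i) a n) : Reg f a n := by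
  obtain ⟨D, σ, hD, hσ, hh⟩ := h
  refine ⟨D, -σ, hD, ?_, fun i h1 h2 => ?_⟩
  · rcases hσ with rfl | rfl
    · right; rfl
    · left; norm_num
  · have := hh i h1 h2
    constructor <;> nlinarith [this.1, this.2]

lemma reg_step {f : ℕ → ℝ} {a n : ℕ} (h : Reg (dif f) a n) (hn : 2 ≤ n) :
    ∃ a' n', a ≤ a' ∧ a' + n' ≤ a + n ∧ n ≤ 16 * n' ∧ Reg f a' n' := by
  obtain ⟨D, σ, hD, hσ, hh⟩ := h
  rcases hσ with rfl | rfl
  · exact reg_step_pos hD (fun i h1 h2 => by simpa [dif] using hh i h1 h2) hn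
  · obtain ⟨a', n', h1, h2, h3, h4⟩ := reg_step_pos (f := fun i => - f i) hD
      (fun i h1 h2 => by
        have := hh i h1 h2
        simp only [dif] at this
        constructor <;> linarith [this.1, this.2]) hn
    exact ⟨a', n', h1, h2, h3, reg_neg h4⟩

lemma reg_iter (e : ℕ) : ∀ (f : ℕ → ℝ) (c : ℝ), c ≠ 0 → (∀ i, dif^[e + 1] f i = c) →
    ∀ a n, 2 * 16 ^ e ≤ n → ∃ a' n', a ≤ a' ∧ a' + n' ≤ a + n ∧ n ≤ 16 ^ e * n' ∧
      Reg (dif f) a' n' := by
  induction e with
  | zero =>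
    intro f c hc h a n _
    refine ⟨a, n, le_rfl, le_rfl, by simp, ?_⟩
    have h' : ∀ i, dif f i = c := by simpa using h
    rcases lt_or_gt_of_ne hc with h0 | h0
    · exact ⟨-c, -1, by linarith, Or.inr rfl, fun i _ _ => by rw [h']; constructor <;> linarith⟩
    · exact ⟨c, 1, h0, Or.inl rfl, fun i _ _ => by rw [h']; constructor <;> linarith⟩
  | succ e ih =>
    intro f c hc h a n hn
    obtain ⟨a', n', h1, h2, h3, h4⟩ := ih (dif f) c hc (by
      intro i
      have := h i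
      rwa [Function.iterate_succ_apply] at this) a n (by
        rw [pow_succ] at hn; omega)
    have hn' : 2 ≤ n' := by
      by_contra hcon
      have : n' ≤ 1 := by omega
      have h5 : 16 ^ e * n' ≤ 16 ^ e * 1 := Nat.mul_le_mul_left _ this
      have h6 : 0 < 16 ^ e := by positivity
      rw [pow_succ] at hn
      omega
    obtain ⟨a'', n'', g1, g2, g3, g4⟩ := reg_step h4 hn'
    refine ⟨a'', n'', by omega, by omega, ?_, g4⟩
    calc n ≤ 16 ^ e * n' := h3
      _ ≤ 16 ^ e * (16 * n'') := Nat.mul_le_mul_left _ g3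
      _ = 16 ^ (e + 1) * n'' := by ring

end Pool.Agent.KS6_31
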