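import Mathlib

set_option autoImplicit false
set_option linter.unusedSectionVars false

/-
Generic contraction and transfer of linear syzygies, over an arbitrary infinite field (the library
files R_seed8/TH393/LkGen and LkSyz do this over the real numbers with a topological argument).
-/

namespace Pool.Agent.KS6_31.SH

open Module Submodule

variable {K : Type} [Field K] {n : ℕ} {M : Type} [AddCommGroup M] [Module K M]
  [FiniteDimensional K M]

/-- The boundary of a subspace: the span of all contractions of its members. -/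
def bd (i : (Fin n → K) →ₗ[K] M →ₗ[K] M) (V : Submodule K M) : Submodule K M :=
  Submodule.map₂ i ⊤ V

variable (i : (Fin n → K) →ₗ[K] M →ₗ[K] M)

lemma mem_bd {V : Submodule K M} (α : Fin n → K) {v : M} (hv : v ∈ V) : i α v ∈ bd i V :=
  Submodule.apply_mem_map₂ i (by trivial) hv

lemma bd_le {V U : Submodule K M} (h : ∀ α : Fin n → K, ∀ v ∈ V, i α v ∈ U) : bd i V ≤ U :=
  Submodule.map₂_le.2 fun α _ v hv => h α v hv

lemma bd_mono {V U : Submodule K M} (h : V ≤ U) : bd i V ≤ bd i U :=
  Submodule.map₂_le_map₂_right h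

/-- `φ` is generic for `V`. -/
def Gen (V : Submodule K M) (φ : Fin n → K) : Prop :=
  ∀ ψ : Fin n → K, ∀ v ∈ V, i φ v = 0 → i ψ v ∈ V.map (i φ)

/-- preimages of a basis of the image -/
lemma exists_preim (V : Submodule K M) (φ : Fin n → K) :
    ∃ w : Fin (finrank K (V.map (i φ))) → M, (∀ j, w j ∈ V) ∧
      LinearIndependent K (fun j => i φ (w j)) ∧
      span K (Set.range fun j => i φ (w j)) = V.map (i φ) := by
  classical
  let b := finBasis K (V.map (i φ))
  have h : ∀ j, ∃ w : M, w ∈ V ∧ i φ w = (b j : M) := fun j => by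
    have := (b j).2
    rw [Submodule.mem_map] at this
    obtain ⟨w, hw, hw'⟩ := this
    exact ⟨w, hw, hw'⟩
  choose w hw hw' using h
  refine ⟨w, hw, ?_, ?_⟩
  · have : (fun j => i φ (w j)) = (V.map (i φ)).subtype ∘ b := by
      funext j; simp [hw']
    rw [this]
    exact b.linearIndependent.map' _ (Submodule.ker_subtype _)
  · have : (fun j => i φ (w j)) = (V.map (i φ)).subtype ∘ b := by
      funext j; simp [hw']
    rw [this, Set.range_comp, ← Submodule.map_span, b.span_eq]
    simp

/-- a family of independent vectors in the image bounds the rank -/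
lemma le_rank_of_indep (V : Submodule K M) {m : ℕ} (w : Fin m → M) (hw : ∀ j, w j ∈ V)
    (h : LinearIndependent K w) : m ≤ finrank K V := by
  have h1 : span K (Set.range w) ≤ V := by
    rw [span_le]
    rintro _ ⟨j, rfl⟩
    exact hw j
  have h2 := finrank_span_eq_card h
  rw [Fintype.card_fin] at h2
  rw [← h2]
  exact Submodule.finrank_mono h1

/-- independence survives a perturbation for all but finitely many parameters -/
lemma perturb_indep {m : ℕ} (x y : Fin m → M) (h : LinearIndependent K x) :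
    ∀ᶠ ε in Filter.cofinite, LinearIndependent K (fun j => x j + (ε : K) • y j) := by
  classical
  obtain ⟨L, hL⟩ : ∃ L : M →ₗ[K] (Fin m → K), ∀ j, L (x j) = Pi.single j 1 := by
    have hi : LinearMap.ker (Fintype.linearCombination K x) = ⊥ := by
      rw [LinearMap.ker_eq_bot']
      intro c hc
      rw [Fintype.linearCombination_apply] at hc
      funext j
      exact (Fintype.linearIndependent_iff.1 h) c hc j
    obtain ⟨L, hL⟩ := LinearMap.exists_leftInverse_of_injective _ hi
    refine ⟨L, fun j => ?_⟩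
    have := LinearMap.congr_fun hL (Pi.single j 1)
    simpa using this
  let B : Matrix (Fin m) (Fin m) K := Matrix.of fun j k => - L (y j) k
  have hfin : {ε : K | B.charpolyRev.eval ε = 0}.Finite := by
    have hne : B.charpolyRev ≠ 0 := by
      intro h0
      have := Matrix.eval_charpolyRev (M := B)
      rw [h0] at this
      simp at this
    refine (B.charpolyRev.roots.toFinset.finite_toSet).subset fun ε hε => ?_
    simpa [Polynomial.mem_roots hne] using hε
  rw [Filter.eventually_cofinite]
  refine hfin.subset fun ε hε => ?_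
  by_contra hne
  apply hε
  have hdet : (1 - ε • B).det ≠ 0 := by
    intro h0
    apply hne
    change B.charpolyRev.eval ε = 0
    rw [Matrix.charpolyRev, ← Polynomial.coe_evalRingHom, RingHom.map_det, ← h0]
    congr 1
    ext j k
    simp [Matrix.sub_apply, Matrix.one_apply]
    split_ifs <;> simp [mul_comm]
  have hrows : LinearIndependent K (fun j => L (x j + ε • y j)) := by
    have h1 := Matrix.linearIndependent_rows_of_det_ne_zero hdet
    have h2 : (fun j => L (x j + ε • y j)) = fun j => (1 - ε • B) j := by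
      funext j
      funext k
      rw [map_add, map_smul, hL]
      simp [B, Matrix.sub_apply, Matrix.one_apply, Pi.single_apply, eq_comm]
    rw [h2]
    exact h1
  exact LinearIndependent.of_comp L hrows

/-- rank does not drop for almost all perturbations -/
lemma rank_semicont (V : Submodule K M) (φ ψ : Fin n → K) :
    ∀ᶠ ε in Filter.cofinite, finrank K (V.map (i φ)) ≤ finrank K (V.map (i (φ + (ε : K) • ψ))) := by
  obtain ⟨w, hw, hli, -⟩ := exists_preim i V φ
  filter_upwards [perturb_indep _ (fun j => i ψ (w j)) hli] with ε hε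
  refine le_rank_of_indep _ _ ?_ hε
  intro j
  refine Submodule.mem_map.2 ⟨w j, hw j, ?_⟩
  simp

/-- rank rises for almost all perturbations if `φ` is not generic -/
lemma rank_rise (V : Submodule K M) (φ ψ : Fin n → K) (v : M) (hv : v ∈ V) (h0 : i φ v = 0)
    (h1 : i ψ v ∉ V.map (i φ)) :
    ∀ᶠ ε in Filter.cofinite, (ε : K) ≠ 0 →
      finrank K (V.map (i φ)) + 1 ≤ finrank K (V.map (i (φ + ε • ψ))) := by
  obtain ⟨w, hw, hli, hsp⟩ := exists_preim i V φ
  have hli' : LinearIndependent K
      (Fin.cons (i ψ v) (fun j => i φ (w j)) : Fin (finrank K (V.map (i φ)) + 1) → M) := by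
    rw [linearIndependent_fin_cons]
    refine ⟨hli, ?_⟩
    rw [hsp]
    exact h1
  filter_upwards [perturb_indep _
    (Fin.cons 0 (fun j => i ψ (w j)) : Fin (finrank K (V.map (i φ)) + 1) → M) hli'] with ε hε hne
  refine le_rank_of_indep _ _ ?_ hε
  intro j
  refine Fin.cases ?_ (fun j => ?_) j
  · refine Submodule.mem_map.2 ⟨ε⁻¹ • v, V.smul_mem _ hv, ?_⟩
    simp [h0, smul_smul, hne]
  · refine Submodule.mem_map.2 ⟨w j, hw j, ?_⟩
    simp

/-- a common generic form exists for two subspaces -/
lemma exists_gen [Infinite K] (V U : Submodule K M) : ∃ φ : Fin n → K, Gen i V φ ∧ Gen i U φ := by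
  classical
  let g : (Fin n → K) → ℕ := fun φ => finrank K (V.map (i φ)) + finrank K (U.map (i φ))
  have hb : ∀ φ, g φ ≤ finrank K M + finrank K M := fun φ =>
    add_le_add (Submodule.finrank_le _) (Submodule.finrank_le _)
  obtain ⟨φ, hφ⟩ : ∃ φ, ∀ φ', g φ' ≤ g φ := by
    have hne : (Set.range g).Nonempty := ⟨g 0, ⟨0, rfl⟩⟩
    have hbd : BddAbove (Set.range g) := ⟨finrank K M + finrank K M, by
      rintro _ ⟨φ, rfl⟩; exact hb φ⟩
    obtain ⟨φ, hφ⟩ := Nat.sSup_mem hne hbd
    refine ⟨φ, fun φ' => ?_⟩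
    rw [hφ]
    exact le_csSup hbd ⟨φ', rfl⟩
  have key : ∀ A B : Submodule K M,
      (∀ φ', finrank K (A.map (i φ')) + finrank K (B.map (i φ')) ≤
        finrank K (A.map (i φ)) + finrank K (B.map (i φ))) → Gen i A φ := by
    intro A B hAB ψ v hv h0
    by_contra h1
    have e1 := rank_rise i A φ ψ v hv h0 h1
    have e2 := rank_semicont i B φ ψ
    have e4 : ∀ᶠ ε in (Filter.cofinite : Filter K), ε ≠ 0 := by
      rw [Filter.eventually_cofinite]
      refine (Set.finite_singleton (0 : K)).subset fun ε hε => ?_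
      simpa using hε
    obtain ⟨ε, ⟨h6, h7⟩, hε⟩ := ((e1.and e2).and e4).exists
    have := hAB (φ + ε • ψ)
    have := h6 hε
    omega
  refine ⟨φ, key V U hφ, key U V fun φ' => ?_⟩
  have := hφ φ'
  simp only [g] at this
  omega

lemma anti (h : ∀ φ v, i φ (i φ v) = 0) (φ ψ : Fin n → K) (v : M) :
    i φ (i ψ v) = - i ψ (i φ v) := by
  have h1 := h (φ + ψ) v
  simp only [map_add, LinearMap.add_apply, h, zero_add, add_zero] at h1
  exact eq_neg_of_add_eq_zero_right h1

lemma map_bd (h : ∀ φ v, i φ (i φ v) = 0) (V : Submodule K M) (φ : Fin n → K) :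
    (bd i V).map (i φ) = bd i (V.map (i φ)) := by
  apply le_antisymm
  · rw [Submodule.map_le_iff_le_comap]
    apply bd_le
    intro α v hv
    rw [Submodule.mem_comap, anti i h]
    exact neg_mem (mem_bd i α (Submodule.mem_map_of_mem hv))
  · apply bd_le
    rintro α _ ⟨v, hv, rfl⟩
    rw [anti i h]
    exact neg_mem (Submodule.mem_map_of_mem (mem_bd i α hv))

lemma finrank_split (V : Submodule K M) (φ : Fin n → K) :
    finrank K (V.map (i φ)) + finrank K (V ⊓ LinearMap.ker (i φ) : Submodule K M)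
      = finrank K V := by
  have h := LinearMap.finrank_range_add_finrank_ker ((i φ).domRestrict V)
  have h1 : LinearMap.range ((i φ).domRestrict V) = V.map (i φ) := by
    rw [LinearMap.range_domRestrict]
  have h2 : finrank K (LinearMap.ker ((i φ).domRestrict V)) =
      finrank K (V ⊓ LinearMap.ker (i φ) : Submodule K M) := by
    rw [LinearMap.ker_domRestrict]
    have h4 := (Submodule.comapSubtypeEquivOfLe (p := V ⊓ LinearMap.ker (i φ)) (q := V)
      inf_le_left).finrank_eq
    have h5 : (V ⊓ LinearMap.ker (i φ)).comap V.subtype = (LinearMap.ker (i φ)).comap V.subtype := by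
      rw [Submodule.comap_inf]
      simp
    rw [← h4, h5]
  rw [h1, h2] at h
  exact h

/-- The kernel part of the boundary. -/
lemma split_bd (h : ∀ φ v, i φ (i φ v) = 0) (V : Submodule K M) (φ : Fin n → K) :
    finrank K (bd i V) = finrank K (bd i (V.map (i φ))) +
      finrank K (bd i V ⊓ LinearMap.ker (i φ) : Submodule K M) := by
  rw [← finrank_split i (bd i V) φ, map_bd i h]

lemma gen_bd_ker {V : Submodule K M} {φ : Fin n → K} (hg : Gen i V φ) :
    bd i (V ⊓ LinearMap.ker (i φ)) ≤ V.map (i φ) := by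
  apply bd_le
  rintro α v ⟨hv, hv0⟩
  exact hg α v hv hv0

lemma map_le_ker (h : ∀ φ v, i φ (i φ v) = 0) (V : Submodule K M) (φ : Fin n → K) :
    V.map (i φ) ≤ bd i V ⊓ LinearMap.ker (i φ) := by
  rintro _ ⟨v, hv, rfl⟩
  exact ⟨mem_bd i φ hv, h φ v⟩

/-! ### syzygies -/

/-- coordinate vector -/
def ev (j : Fin n) : Fin n → K := Pi.single j 1

lemma sum_ev (α : Fin n → K) : ∑ j, α j • ev j = α := by
  funext k
  simp [ev, Finset.sum_apply, Pi.single_apply]

/-- the contraction of a tuple -/
def mu (c : Fin n → M) : M := ∑ j, i (ev j) (c j)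

lemma mu_add (c d : Fin n → M) : mu i (c + d) = mu i c + mu i d := by
  simp [mu, Finset.sum_add_distrib]

lemma mu_smul (r : K) (c : Fin n → M) : mu i (r • c) = r • mu i c := by
  simp [mu, Finset.smul_sum]

lemma mu_tensor (α : Fin n → K) (v : M) : mu i (fun j => α j • v) = i α v := by
  conv_rhs => rw [← sum_ev α]
  simp [mu]

/-- trivial syzygies of `B` -/
def triv (B : Submodule K M) : Submodule K (Fin n → M) :=
  span K {x | ∃ α : Fin n → K, ∃ v ∈ B, x = fun j => α j • i α v}

lemma gen_mem_triv {B : Submodule K M} (α : Fin n → K) {v : M} (hv : v ∈ B) :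
    (fun j => α j • i α v) ∈ triv i B :=
  subset_span ⟨α, v, hv, rfl⟩

lemma mu_triv (h : ∀ φ v, i φ (i φ v) = 0) {B : Submodule K M} {c : Fin n → M}
    (hc : c ∈ triv i B) : mu i c = 0 := by
  unfold triv at hc
  induction hc using Submodule.span_induction with
  | mem x hx =>
    obtain ⟨α, v, -, rfl⟩ := hx
    rw [mu_tensor, h]
  | zero => simp [mu]
  | add x y _ _ hx hy => rw [mu_add, hx, hy, add_zero]
  | smul r x _ hx => rw [mu_smul, hx, smul_zero]

lemma triv_coord {B : Submodule K M} {c : Fin n → M} (hc : c ∈ triv i B) (j : Fin n) :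
    c j ∈ bd i B := by
  unfold triv at hc
  induction hc using Submodule.span_induction with
  | mem x hx =>
    obtain ⟨α, v, hv, rfl⟩ := hx
    exact Submodule.smul_mem _ _ (mem_bd i α hv)
  | zero => simp
  | add x y _ _ hx hy => exact add_mem hx hy
  | smul r x _ hx => exact Submodule.smul_mem _ _ hx

lemma polar {B : Submodule K M} (α β : Fin n → K) {v : M} (hv : v ∈ B) :
    (fun j => α j • i β v + β j • i α v) ∈ triv i B := by
  have h1 := gen_mem_triv i (α + β) hv
  have h2 := gen_mem_triv i α hv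
  have h3 := gen_mem_triv i β hv
  have h4 := sub_mem (sub_mem h1 h2) h3
  convert h4 using 1
  funext j
  simp only [Pi.sub_apply, Pi.add_apply, map_add, LinearMap.add_apply, smul_add, add_smul]
  abel

lemma triv_lift (h : ∀ φ v, i φ (i φ v) = 0) {B : Submodule K M} {φ : Fin n → K}
    {c : Fin n → M} (hc : c ∈ triv i (B.map (i φ))) :
    ∃ d ∈ triv i B, ∀ j, c j = - i φ (d j) := by
  unfold triv at hc
  induction hc using Submodule.span_induction with
  | mem x hx =>
    obtain ⟨α, w, ⟨v, hv, rfl⟩, rfl⟩ := hx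
    refine ⟨_, gen_mem_triv i α hv, fun j => ?_⟩
    simp only [anti i h α φ, map_smul, smul_neg]
  | zero => exact ⟨0, zero_mem _, by simp⟩
  | add x y _ _ hx hy =>
    obtain ⟨d, hd, hd'⟩ := hx
    obtain ⟨e, he, he'⟩ := hy
    refine ⟨d + e, add_mem hd he, fun j => ?_⟩
    simp only [Pi.add_apply, map_add, hd' j, he' j, neg_add]
  | smul r x _ hx =>
    obtain ⟨d, hd, hd'⟩ := hx
    refine ⟨r • d, Submodule.smul_mem _ _ hd, fun j => ?_⟩
    simp only [Pi.smul_apply, map_smul, hd' j, smul_neg]

/-- all linear syzygies are trivial -/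
def Syz (B : Submodule K M) : Prop :=
  ∀ c : Fin n → M, (∀ j, c j ∈ bd i B) → mu i c = 0 → c ∈ triv i B

lemma mu_mem {B : Submodule K M} {u : Fin n → M} (hu : ∀ j, u j ∈ B) : mu i u ∈ bd i B :=
  sum_mem fun j _ => mem_bd i _ (hu j)

lemma mu_contr (h : ∀ φ v, i φ (i φ v) = 0) (φ : Fin n → K) (u : Fin n → M) :
    mu i (fun j => i φ (u j)) = - i φ (mu i u) := by
  simp only [mu, map_sum, ← Finset.sum_neg_distrib]
  exact Finset.sum_congr rfl fun j _ => anti i h _ _ _

lemma syz_core (h : ∀ φ v, i φ (i φ v) = 0) {B : Submodule K M} {φ : Fin n → K}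
    (hker : bd i B ⊓ LinearMap.ker (i φ) ≤ B.map (i φ)) (hS : Syz i (B.map (i φ)))
    {c : Fin n → M} (hc : ∀ j, c j ∈ bd i B) (h0 : i φ (mu i c) = 0) :
    ∃ d ∈ triv i B, ∃ u : Fin n → M, (∀ j, u j ∈ B) ∧ ∀ j, c j + d j = i φ (u j) := by
  have h1 : (fun j => i φ (c j)) ∈ triv i (B.map (i φ)) := by
    apply hS
    · intro j
      rw [← map_bd i h]
      exact Submodule.mem_map_of_mem (hc j)
    · rw [mu_contr i h, h0, neg_zero]
  obtain ⟨d, hd, hd'⟩ := triv_lift i h h1
  have h2 : ∀ j, ∃ u, u ∈ B ∧ i φ u = c j + d j := by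
    intro j
    have h3 : c j + d j ∈ B.map (i φ) := by
      apply hker
      refine ⟨add_mem (hc j) (triv_coord i hd j), ?_⟩
      have h3 : i φ (c j) = - i φ (d j) := hd' j
      change i φ (c j + d j) = 0
      rw [map_add, h3, neg_add_cancel]
    exact Submodule.mem_map.1 h3
  choose u hu hu' using h2
  exact ⟨d, hd, u, hu, fun j => (hu' j).symm⟩

/-- Transfer of the syzygy property. -/
lemma syz_transfer (h : ∀ φ v, i φ (i φ v) = 0) {B : Submodule K M} {φ : Fin n → K}
    (hker : bd i B ⊓ LinearMap.ker (i φ) ≤ B.map (i φ)) (hS : Syz i (B.map (i φ))) :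
    Syz i B := by
  intro c hc hmu
  obtain ⟨d, hd, u, hu, hcd⟩ := syz_core i h hker hS hc (by rw [hmu, map_zero])
  have hcd' : c = (fun j => i φ (u j)) - d := by
    funext j
    simp only [Pi.sub_apply, ← hcd j]
    abel
  have h1 : mu i (fun j => i φ (u j)) = 0 := by
    have : (fun j => i φ (u j)) = c + d := by
      funext j; simp [hcd j]
    rw [this, mu_add, hmu, mu_triv i h hd, add_zero]
  rw [mu_contr i h, neg_eq_zero] at h1
  have h2 : mu i u ∈ B.map (i φ) := hker ⟨mu_mem i hu, h1⟩
  obtain ⟨w, hw, hw'⟩ := Submodule.mem_map.1 h2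
  have h3 : (fun j => i φ (u j)) + (fun j => φ j • mu i u) ∈ triv i B := by
    have h4 : (∑ k, fun j => (ev k : Fin n → K) j • i φ (u k) + φ j • i (ev k) (u k)) ∈
        triv i B := sum_mem fun k _ => polar i (ev k) φ (hu k)
    convert h4 using 1
    funext j
    simp only [Pi.add_apply, Finset.sum_apply, Finset.sum_add_distrib]
    congr 1
    · simp [ev, Pi.single_apply]
    · simp [mu, Finset.smul_sum]
  have h5 : (fun j => φ j • mu i u) ∈ triv i B := by
    rw [← hw']
    exact gen_mem_triv i φ hw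
  rw [hcd']
  refine sub_mem ?_ hd
  have := sub_mem h3 h5
  simpa using this

lemma exists_mu {V : Submodule K M} {y : M} (hy : y ∈ bd i V) :
    ∃ c : Fin n → M, (∀ j, c j ∈ V) ∧ mu i c = y := by
  unfold bd at hy
  rw [Submodule.map₂] at hy
  induction hy using Submodule.iSup_induction' with
  | mem x y hy =>
    obtain ⟨v, hv, rfl⟩ := Submodule.mem_map.1 hy
    exact ⟨fun j => (x : Fin n → K) j • v, fun j => V.smul_mem _ hv, mu_tensor i _ _⟩
  | zero => exact ⟨0, fun _ => V.zero_mem, by simp [mu]⟩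
  | add x y _ _ hx hy =>
    obtain ⟨c, hc, hc'⟩ := hx
    obtain ⟨d, hd, hd'⟩ := hy
    exact ⟨c + d, fun j => add_mem (hc j) (hd j), by rw [mu_add, hc', hd']⟩

/-- The kernel of the contraction on the second boundary. -/
lemma ker_transfer (h : ∀ φ v, i φ (i φ v) = 0) {B : Submodule K M} {φ : Fin n → K}
    (hker : bd i B ⊓ LinearMap.ker (i φ) ≤ B.map (i φ)) (hS : Syz i (B.map (i φ))) :
    bd i (bd i B) ⊓ LinearMap.ker (i φ) ≤ (bd i B).map (i φ) := by
  rintro y ⟨hy, hy0⟩
  obtain ⟨c, hc, rfl⟩ := exists_mu i hy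
  obtain ⟨d, hd, u, hu, hcd⟩ := syz_core i h hker hS hc hy0
  have h1 : mu i c = - i φ (mu i u) := by
    rw [← mu_contr i h]
    have : (fun j => i φ (u j)) = c + d := by
      funext j; simp [hcd j]
    rw [this, mu_add, mu_triv i h hd, add_zero]
  rw [h1]
  exact neg_mem (Submodule.mem_map_of_mem (mu_mem i hu))


end Pool.Agent.KS6_31.SH
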