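import Pool.Agent.KS6_31.SH1
import Pool.Graph.R_seed8.TH393.LkMain

set_option autoImplicit false
set_option linter.unusedSectionVars false

/-
Kruskal-Katona and the gap theorem for subspaces, over an arbitrary infinite field (the library
files R_seed8/TH393/LkExt, LkKk, LkMain do this over the real numbers; the numerical lemmas
split_ineq, second_ineq, jump, Fm_cascade are imported).
-/

namespace Pool.Agent.KS6_31.SH

open Module Submodule Finset
open Pool.Agent.TH393.Lk (Fm Fm_zero Fm_nil Fm_mono split_ineq second_ineq TT SS SS_pascal jump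
  Fm_cascade)

variable {K : Type} [Field K] {n : ℕ}

/-- the sign of removing `j` -/
def sg (j : Fin n) (Y : Finset (Fin n)) : K := (-1) ^ (Y.filter (· < j)).card

lemma sg_ne (j : Fin n) (Y : Finset (Fin n)) : (sg j Y : K) ≠ 0 := by
  unfold sg
  exact pow_ne_zero _ (neg_ne_zero.2 one_ne_zero)

lemma sg_insert_lt {j l : Fin n} {Y : Finset (Fin n)} (h : l < j) (hl : l ∉ Y) :
    (sg j (insert l Y) : K) = - sg j Y := by
  unfold sg
  rw [Finset.filter_insert, if_pos h, Finset.card_insert_of_notMem (by simp [hl]), pow_succ]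
  ring

lemma sg_insert_ge {j l : Fin n} {Y : Finset (Fin n)} (h : ¬ l < j) :
    (sg j (insert l Y) : K) = sg j Y := by
  unfold sg
  rw [Finset.filter_insert, if_neg h]

/-- the contraction -/
def ct : (Fin n → K) →ₗ[K] (Finset (Fin n) → K) →ₗ[K] (Finset (Fin n) → K) :=
  LinearMap.mk₂ K
    (fun φ v => fun Y => ∑ j ∈ Yᶜ, φ j * sg j Y * v (insert j Y))
    (fun φ ψ v => by
      funext Y
      simp only [Pi.add_apply, add_mul, Finset.sum_add_distrib])
    (fun r φ v => by
      funext Y
      simp only [Pi.smul_apply, smul_eq_mul, Finset.mul_sum, mul_assoc])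
    (fun φ v w => by
      funext Y
      simp only [Pi.add_apply, mul_add, Finset.sum_add_distrib])
    (fun r φ v => by
      funext Y
      simp only [Pi.smul_apply, smul_eq_mul, Finset.mul_sum]
      exact Finset.sum_congr rfl fun j _ => by ring)

lemma ct_apply (φ : Fin n → K) (v : Finset (Fin n) → K) (Y : Finset (Fin n)) :
    (ct (K := K)) φ v Y = ∑ j ∈ Yᶜ, φ j * sg j Y * v (insert j Y) := rfl

lemma ct_ct (φ : Fin n → K) (v : Finset (Fin n) → K) : (ct (K := K)) φ ((ct (K := K)) φ v) = 0 := by
  funext Y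
  rw [ct_apply]
  simp only [ct_apply, Finset.mul_sum]
  rw [Finset.sum_sigma']
  simp only [Pi.zero_apply]
  refine Finset.sum_involution (fun p _ => ⟨p.2, p.1⟩) ?_ ?_ ?_ ?_
  · rintro ⟨j, l⟩ hp
    simp only [Finset.mem_sigma, Finset.mem_compl, Finset.mem_insert, not_or] at hp
    obtain ⟨hj, hlj, hl⟩ := hp
    simp only
    rw [Finset.insert_comm j l Y]
    rcases lt_or_gt_of_ne hlj with h | h
    · rw [sg_insert_ge (j := l) (l := j) (by exact not_lt.2 h.le), sg_insert_lt (j := j) (l := l) h hl]
      ring
    · rw [sg_insert_lt (j := l) (l := j) h hj, sg_insert_ge (j := j) (l := l) (by exact not_lt.2 h.le)]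
      ring
  · rintro ⟨j, l⟩ hp _ h
    simp only [Finset.mem_sigma, Finset.mem_compl, Finset.mem_insert, not_or] at hp
    simp only [Sigma.mk.injEq, heq_eq_eq] at h
    exact hp.2.1 h.1
  · rintro ⟨j, l⟩ hp
    simp only [Finset.mem_sigma, Finset.mem_compl, Finset.mem_insert, not_or] at hp ⊢
    exact ⟨hp.2.2, fun h => hp.2.1 h.symm, hp.1⟩
  · rintro ⟨j, l⟩ hp
    rfl

/-- functions supported on `k`-sets -/
def gr (K : Type) [Field K] (n k : ℕ) : Submodule K (Finset (Fin n) → K) where
  carrier := {v | ∀ Y, Y.card ≠ k → v Y = 0}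
  add_mem' := by
    intro v w hv hw Y hY
    simp [hv Y hY, hw Y hY]
  zero_mem' := by intro Y _; rfl
  smul_mem' := by
    intro r v hv Y hY
    simp [hv Y hY]

lemma mem_gr {k : ℕ} {v : Finset (Fin n) → K} : v ∈ gr K n k ↔ ∀ Y, Y.card ≠ k → v Y = 0 :=
  Iff.rfl

lemma ct_gr {k : ℕ} {v : Finset (Fin n) → K} (hv : v ∈ gr K n (k + 1)) (φ : Fin n → K) :
    (ct (K := K)) φ v ∈ gr K n k := by
  intro Y hY
  rw [ct_apply]
  apply Finset.sum_eq_zero
  intro j hj
  rw [Finset.mem_compl] at hj
  rw [hv (insert j Y) (by rw [Finset.card_insert_of_notMem hj]; omega), mul_zero]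

lemma ct_gr0 {v : Finset (Fin n) → K} (hv : v ∈ gr K n 0) (φ : Fin n → K) :
    (ct (K := K)) φ v = 0 := by
  funext Y
  rw [ct_apply]
  apply Finset.sum_eq_zero
  intro j hj
  rw [Finset.mem_compl] at hj
  rw [hv (insert j Y) (by rw [Finset.card_insert_of_notMem hj]; omega), mul_zero]

lemma ct_ev (j : Fin n) (v : Finset (Fin n) → K) (Y : Finset (Fin n)) (hj : j ∉ Y) :
    (ct (K := K)) (ev j) v Y = sg j Y * v (insert j Y) := by
  rw [ct_apply, Finset.sum_eq_single j]
  · simp [ev]
  · intro l _ hl
    simp [ev, Pi.single_apply, hl]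
  · intro h
    rw [Finset.mem_compl] at h
    exact absurd hj h

lemma ct_inj {k : ℕ} {v : Finset (Fin n) → K} (hv : v ∈ gr K n (k + 1))
    (h : ∀ φ, (ct (K := K)) φ v = 0) : v = 0 := by
  funext X
  by_cases hX : X.card = k + 1
  · have hne : X.Nonempty := by
      rw [← Finset.card_pos]; omega
    obtain ⟨j, hj⟩ := hne
    have h1 := congrFun (h (ev j)) (X.erase j)
    rw [ct_ev j v _ (Finset.notMem_erase _ _), Finset.insert_erase hj] at h1
    simp only [Pi.zero_apply, mul_eq_zero] at h1
    rcases h1 with h1 | h1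
    · exact absurd h1 (sg_ne _ _)
    · simpa using h1
  · exact hv X hX

/-- functions supported on a family -/
def sp (K : Type) [Field K] (A : Finset (Finset (Fin n))) : Submodule K (Finset (Fin n) → K) where
  carrier := {v | ∀ Y, Y ∉ A → v Y = 0}
  add_mem' := by
    intro v w hv hw Y hY
    simp [hv Y hY, hw Y hY]
  zero_mem' := by intro Y _; rfl
  smul_mem' := by
    intro r v hv Y hY
    simp [hv Y hY]

lemma sp_eq_span (A : Finset (Finset (Fin n))) :
    sp K A = span K (Set.range fun Y : A => (Pi.single Y.1 1 : Finset (Fin n) → K)) := by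
  apply le_antisymm
  · intro v hv
    have h1 : v = ∑ Y ∈ A, v Y • (Pi.single Y 1 : Finset (Fin n) → K) := by
      funext X
      rw [Finset.sum_apply]
      simp only [Pi.smul_apply, smul_eq_mul, Pi.single_apply, mul_ite, mul_one, mul_zero,
        Finset.sum_ite_eq]
      split_ifs with hX
      · rfl
      · exact hv X hX
    rw [h1]
    refine sum_mem fun Y hY => Submodule.smul_mem _ _ (subset_span ⟨⟨Y, hY⟩, rfl⟩)
  · rw [span_le]
    rintro _ ⟨⟨Y, hY⟩, rfl⟩ X hX
    simp only [Pi.single_apply]
    rw [if_neg]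
    rintro rfl
    exact hX hY

lemma finrank_sp (A : Finset (Finset (Fin n))) : finrank K (sp K A) = A.card := by
  rw [sp_eq_span]
  rw [finrank_span_eq_card]
  · simp
  · have h1 := (Pi.basisFun K (Finset (Fin n))).linearIndependent
    have h2 := h1.comp (fun Y : A => Y.1) Subtype.val_injective
    convert h2 using 1
    funext Y
    simp

lemma bd_sp (A : Finset (Finset (Fin n))) : bd (ct (K := K)) (sp K A) = sp K A.shadow := by
  apply le_antisymm
  · apply bd_le
    intro φ v hv Y hY
    rw [ct_apply]
    apply Finset.sum_eq_zero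
    intro j hj
    rw [Finset.mem_compl] at hj
    rw [hv (insert j Y) ?_, mul_zero]
    intro hc
    exact hY (Finset.mem_shadow_iff_insert_mem.2 ⟨j, hj, hc⟩)
  · rw [sp_eq_span A.shadow, span_le]
    rintro _ ⟨⟨Y, hY⟩, rfl⟩
    obtain ⟨j, hj, hjY⟩ := Finset.mem_shadow_iff_insert_mem.1 hY
    have h1 : (Pi.single (insert j Y) 1 : Finset (Fin n) → K) ∈ sp K A := by
      intro X hX
      simp only [Pi.single_apply]
      rw [if_neg]
      rintro rfl
      exact hX hjY
    have h2 : (ct (K := K)) (ev j) (Pi.single (insert j Y) 1 : Finset (Fin n) → K) =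
        (sg j Y : K) • (Pi.single Y 1 : Finset (Fin n) → K) := by
      funext X
      by_cases hjX : j ∈ X
      · rw [ct_apply, Finset.sum_eq_zero]
        · have : X ≠ Y := by rintro rfl; exact hj hjX
          simp [Pi.single_apply, this]
        · intro l hl
          rw [Finset.mem_compl] at hl
          have : l ≠ j := by rintro rfl; exact hl hjX
          simp [ev, Pi.single_apply, this]
      · rw [ct_ev j _ X hjX]
        by_cases hXY : X = Y
        · subst hXY
          simp
        · have : insert j X ≠ insert j Y := by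
            intro h
            apply hXY
            have := congrArg (fun Z => Finset.erase Z j) h
            simpa [Finset.erase_insert hjX, Finset.erase_insert hj] using this
          simp [Pi.single_apply, hXY, this]
    have h3 := mem_bd (ct (K := K)) (ev j) h1
    rw [h2] at h3
    have h4 := Submodule.smul_mem _ (sg j Y : K)⁻¹ h3
    rw [smul_smul, inv_mul_cancel₀ (sg_ne j Y), one_smul] at h4
    exact h4

lemma sp_le_gr {A : Finset (Finset (Fin n))} {k : ℕ} (h : ∀ X ∈ A, X.card = k) :
    sp K A ≤ gr K n k := by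
  intro v hv Y hY
  exact hv Y fun hYA => hY (h Y hYA)

lemma map_gr {k : ℕ} {V : Submodule K (Finset (Fin n) → K)} (hV : V ≤ gr K n (k + 1))
    (φ : Fin n → K) : V.map ((ct (K := K)) φ) ≤ gr K n k := by
  rintro _ ⟨v, hv, rfl⟩
  exact ct_gr (hV hv) φ

lemma bd_gr {k : ℕ} {V : Submodule K (Finset (Fin n) → K)} (hV : V ≤ gr K n (k + 1)) :
    bd (ct (K := K)) V ≤ gr K n k :=
  bd_le (ct (K := K)) fun α _ hv => ct_gr (hV hv) α

/-- Kruskal-Katona for subspaces -/
theorem kk [Infinite K] (k : ℕ) : ∀ d : ℕ, ∀ V : Submodule K (Finset (Fin n) → K), V ≤ gr K n k →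
    finrank K V = d → Fm k d ≤ finrank K (bd (ct (K := K)) V) := by
  induction k with
  | zero =>
    intro d V _ _
    rw [Fm_zero]
    exact Nat.zero_le _
  | succ k ihk =>
    intro d
    induction d using Nat.strong_induction_on with
    | _ d ihd =>
      intro V hV hd
      obtain ⟨φ, hg, -⟩ := exists_gen (ct (K := K)) V V
      have h1 := finrank_split (ct (K := K)) V φ
      have h2 := split_bd (ct (K := K)) ct_ct V φ
      have h3 := Submodule.finrank_mono (map_le_ker (ct (K := K)) ct_ct V φ)
      have h4 := Submodule.finrank_mono (gen_bd_ker (ct (K := K)) hg)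
      have h5 := ihk _ (V.map ((ct (K := K)) φ)) (map_gr hV φ) rfl
      rcases Nat.eq_zero_or_pos (finrank K (V.map ((ct (K := K)) φ))) with h0 | hpos
      · have h6 : V.map ((ct (K := K)) φ) = ⊥ := Submodule.finrank_eq_zero.1 h0
        have h7 : V = ⊥ := by
          rw [Submodule.eq_bot_iff]
          intro v hv
          have h8 : (ct (K := K)) φ v = 0 := by
            have : (ct (K := K)) φ v ∈ V.map ((ct (K := K)) φ) := Submodule.mem_map_of_mem hv
            rw [h6] at this
            exact (Submodule.mem_bot K).1 this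
          apply ct_inj (hV hv)
          intro ψ
          have := hg ψ v hv h8
          rw [h6] at this
          exact (Submodule.mem_bot K).1 this
        have h9 : d = 0 := by
          rw [← hd, h7, finrank_bot]
        rw [h9, Fm_nil]
        exact Nat.zero_le _
      · have h6 := ihd (finrank K (V ⊓ LinearMap.ker ((ct (K := K)) φ) : Submodule K _)) (by omega)
          (V ⊓ LinearMap.ker ((ct (K := K)) φ)) (inf_le_left.trans hV) rfl
        have h7 := split_ineq k _ _ (h6.trans h4)
        have h8 : finrank K (V ⊓ LinearMap.ker ((ct (K := K)) φ) : Submodule K _) +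
          finrank K (V.map ((ct (K := K)) φ)) = d := by omega
        rw [h8] at h7
        omega

theorem kk' [Infinite K] {k : ℕ} {V : Submodule K (Finset (Fin n) → K)} (hV : V ≤ gr K n k) :
    Fm k (finrank K V) ≤ finrank K (bd (ct (K := K)) V) := kk k _ V hV rfl

/-- Optimal subspaces: linear syzygies and the second boundary. -/
theorem opt [Infinite K] (k : ℕ) : ∀ B : Submodule K (Finset (Fin n) → K), B ≤ gr K n k →
    finrank K (bd (ct (K := K)) B) = Fm k (finrank K B) →
    Syz (ct (K := K)) B ∧ finrank K (bd (ct (K := K)) (bd (ct (K := K)) B)) ≤ Fm (k - 1) (Fm k (finrank K B)) := by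
  induction k with
  | zero =>
    intro B hB _
    have h0 : bd (ct (K := K)) B = ⊥ := by
      rw [Submodule.eq_bot_iff]
      intro v hv
      have : bd (ct (K := K)) B ≤ ⊥ := bd_le (ct (K := K)) fun α w hw => by
        rw [Submodule.mem_bot]
        exact ct_gr0 (hB hw) α
      exact (Submodule.mem_bot K).1 (this hv)
    refine ⟨?_, ?_⟩
    · intro c hc _
      have : c = 0 := by
        funext j
        have := hc j
        rw [h0] at this
        exact (Submodule.mem_bot K).1 this
      rw [this]
      exact zero_mem _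
    · have h1 : bd (ct (K := K)) (bd (ct (K := K)) B) = ⊥ := by
        rw [h0, Submodule.eq_bot_iff]
        intro v hv
        have : bd (ct (K := K)) (⊥ : Submodule K (Finset (Fin n) → K)) ≤ ⊥ := bd_le (ct (K := K)) fun α w hw => by
          rw [(Submodule.mem_bot K).1 hw, map_zero]
          exact zero_mem _
        exact (Submodule.mem_bot K).1 (this hv)
      rw [h1, finrank_bot]
      exact Nat.zero_le _
  | succ k ih =>
    intro B hB hopt
    obtain ⟨φ, hg, hg'⟩ := exists_gen (ct (K := K)) B (bd (ct (K := K)) B)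
    have h1 := finrank_split (ct (K := K)) B φ
    have h2 := split_bd (ct (K := K)) ct_ct B φ
    have h3 := Submodule.finrank_mono (map_le_ker (ct (K := K)) ct_ct B φ)
    have h4 := Submodule.finrank_mono (gen_bd_ker (ct (K := K)) hg)
    have h5 := kk' (map_gr hB φ)
    have h6 := kk' (show B ⊓ LinearMap.ker ((ct (K := K)) φ) ≤ gr K n (k + 1) from inf_le_left.trans hB)
    have h7 := split_ineq k _ _ (h6.trans h4)
    have h8 : finrank K (B ⊓ LinearMap.ker ((ct (K := K)) φ) : Submodule K _) +
          finrank K (B.map ((ct (K := K)) φ)) = finrank K B := by omega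
    rw [h8] at h7
    have h9 : finrank K (bd (ct (K := K)) (B.map ((ct (K := K)) φ))) = Fm k (finrank K (B.map ((ct (K := K)) φ))) := by omega
    have h10 : finrank K (bd (ct (K := K)) B ⊓ LinearMap.ker ((ct (K := K)) φ) : Submodule K _) ≤
      finrank K (B.map ((ct (K := K)) φ)) := by omega
    have h11 : Fm (k + 1) (finrank K B) = finrank K (B.map ((ct (K := K)) φ)) +
      Fm k (finrank K (B.map ((ct (K := K)) φ))) := by omega
    have h12 : B.map ((ct (K := K)) φ) = bd (ct (K := K)) B ⊓ LinearMap.ker ((ct (K := K)) φ) :=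
      Submodule.eq_of_le_of_finrank_le (map_le_ker (ct (K := K)) ct_ct B φ) h10
    obtain ⟨hS, hd⟩ := ih (B.map ((ct (K := K)) φ)) (map_gr hB φ) h9
    have hker : bd (ct (K := K)) B ⊓ LinearMap.ker ((ct (K := K)) φ) ≤ B.map ((ct (K := K)) φ) := h12.ge
    refine ⟨syz_transfer (ct (K := K)) ct_ct hker hS, ?_⟩
    have h13 := Submodule.finrank_mono (ker_transfer (ct (K := K)) ct_ct hker hS)
    have h14 := finrank_split (ct (K := K)) (bd (ct (K := K)) (bd (ct (K := K)) B)) φ
    rw [map_bd (ct (K := K)) ct_ct, map_bd (ct (K := K)) ct_ct] at h14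
    rw [map_bd (ct (K := K)) ct_ct] at h13
    rw [h11]
    simp only [Nat.add_sub_cancel]
    rcases k with _ | k
    · simp only [Fm_zero, Nat.zero_sub, add_zero] at *
      omega
    · have h15 := second_ineq k (finrank K (B.map ((ct (K := K)) φ)))
      simp only [Nat.add_sub_cancel] at hd
      omega

/-- The gap theorem for subspaces. -/
theorem gap [Infinite K] (m : ℕ) (β : ℕ → ℕ) (hβ : ∀ j, j + 1 < m → β j ≤ β (j + 1)) (ρ : ℕ) :
    ∀ V : Submodule K (Finset (Fin n) → K), V ≤ gr K n (ρ + m) →
    Fm (ρ + m) (finrank K V - 1) ≤ SS ρ m β → SS ρ m β < finrank K (bd (ct (K := K)) V) →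
    Fm (ρ + m) (finrank K V - 1) + ρ ≤ finrank K (bd (ct (K := K)) V) := by
  induction ρ with
  | zero =>
    intro V _ h1 h2
    omega
  | succ ρ ih =>
    intro V hV h1 h2
    rcases Nat.eq_zero_or_pos ρ with rfl | hρ
    · omega
    have e1 : ρ + 1 + m = (ρ + m) + 1 := by ring
    rw [e1] at hV h1 ⊢
    have e3 := SS_pascal ρ m β
    obtain ⟨φ, hg, hg'⟩ := exists_gen (ct (K := K)) V (bd (ct (K := K)) V)
    have g1 := finrank_split (ct (K := K)) V φ
    have g2 := split_bd (ct (K := K)) ct_ct V φ
    have g3 := Submodule.finrank_mono (map_le_ker (ct (K := K)) ct_ct V φ)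
    have g4 := Submodule.finrank_mono (gen_bd_ker (ct (K := K)) hg)
    have hV1 := map_gr hV φ
    have g5 := kk' hV1
    have g6 := kk' (show V ⊓ LinearMap.ker ((ct (K := K)) φ) ≤ gr K n (ρ + m + 1) from inf_le_left.trans hV)
    have hj := jump m ρ β hβ
    have hc := Fm_cascade ρ m β hβ
    have step1 : SS ρ m β < finrank K (bd (ct (K := K)) (V.map ((ct (K := K)) φ))) := by
      by_contra hcon
      have f1 := Submodule.finrank_mono (gen_bd_ker (ct (K := K)) hg')
      rw [map_bd (ct (K := K)) ct_ct] at f1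
      have f2 := kk' (show bd (ct (K := K)) V ⊓ LinearMap.ker ((ct (K := K)) φ) ≤ gr K n (ρ + m) from
        inf_le_left.trans (bd_gr hV))
      have f3 : finrank K (bd (ct (K := K)) V ⊓ LinearMap.ker ((ct (K := K)) φ) : Submodule K _) ≤ TT ρ m β := by
        by_contra hcon2
        have := Fm_mono (ρ + m) (show TT ρ m β + 1 ≤
          finrank K (bd (ct (K := K)) V ⊓ LinearMap.ker ((ct (K := K)) φ) : Submodule K _) by omega)
        omega
      omega
    by_cases hbig : TT ρ m β + 1 ≤ finrank K (V.map ((ct (K := K)) φ))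
    · have := Fm_mono (ρ + m) hbig
      omega
    · have hle : finrank K (V.map ((ct (K := K)) φ)) ≤ TT ρ m β := by omega
      have hle' := Fm_mono (ρ + m) hle
      have hle'' := Fm_mono (ρ + m) (show finrank K (V.map ((ct (K := K)) φ)) - 1 ≤ TT ρ m β by omega)
      have f1 := ih (V.map ((ct (K := K)) φ)) hV1 (by omega) step1
      have hv1 : 1 ≤ finrank K (V.map ((ct (K := K)) φ)) := by
        by_contra h0
        have h0' : finrank K (V.map ((ct (K := K)) φ)) = 0 := by omega
        have h6 : V.map ((ct (K := K)) φ) = ⊥ := Submodule.finrank_eq_zero.1 h0'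
        have h7 : bd (ct (K := K)) (V.map ((ct (K := K)) φ)) = ⊥ := by
          rw [h6, Submodule.eq_bot_iff]
          intro v hv
          have : bd (ct (K := K)) (⊥ : Submodule K (Finset (Fin n) → K)) ≤ ⊥ := bd_le (ct (K := K)) fun α w hw => by
            rw [(Submodule.mem_bot K).1 hw, map_zero]
            exact zero_mem _
          exact (Submodule.mem_bot K).1 (this hv)
        rw [h7, finrank_bot] at step1
        omega
      by_cases hb : Fm (ρ + m + 1) (finrank K (V ⊓ LinearMap.ker ((ct (K := K)) φ) : Submodule K _)) ≤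
          finrank K (V.map ((ct (K := K)) φ)) - 1
      · have f2 := split_ineq (ρ + m) _ _ hb
        have f3 : finrank K (V ⊓ LinearMap.ker ((ct (K := K)) φ) : Submodule K _) +
          (finrank K (V.map ((ct (K := K)) φ)) - 1) = finrank K V - 1 := by omega
        rw [f3] at f2
        omega
      · exfalso
        have f4 : bd (ct (K := K)) (V ⊓ LinearMap.ker ((ct (K := K)) φ)) = V.map ((ct (K := K)) φ) :=
          Submodule.eq_of_le_of_finrank_le (gen_bd_ker (ct (K := K)) hg) (by omega)
        have f5 := (opt (ρ + m + 1) (V ⊓ LinearMap.ker ((ct (K := K)) φ)) (inf_le_left.trans hV)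
          (by omega)).2
        rw [f4] at f5
        simp only [Nat.add_sub_cancel] at f5
        have f6 : Fm (ρ + m + 1) (finrank K (V ⊓ LinearMap.ker ((ct (K := K)) φ) : Submodule K _)) =
          finrank K (V.map ((ct (K := K)) φ)) := by omega
        rw [f6] at f5
        omega


end Pool.Agent.KS6_31.SH
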