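import Pool.Agent.KS6_31.SH2

set_option autoImplicit false
set_option linter.unusedSectionVars false

/-
Elementary form of the boundary of a subspace, and extension of scalars to an algebraic closure,
which removes the hypothesis that the field is infinite.
-/

namespace Pool.Agent.KS6_31.SH

open Module Submodule Finset

variable {K : Type} [Field K] {n : ℕ}

/-- Contraction by the `j`-th coordinate form. -/
def contr (j : Fin n) (v : Finset (Fin n) → K) : Finset (Fin n) → K := fun Y =>
  if j ∈ Y then 0 else (-1) ^ (Y.filter (· < j)).card * v (insert j Y)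

/-- The span of all contractions of the members of `V`. -/
def bdry (V : Submodule K (Finset (Fin n) → K)) : Submodule K (Finset (Fin n) → K) :=
  span K {w | ∃ j : Fin n, ∃ v ∈ V, w = contr j v}

lemma contr_eq (j : Fin n) (v : Finset (Fin n) → K) : contr j v = ct (ev j) v := by
  funext Y
  unfold contr
  split_ifs with h
  · rw [ct_apply, Finset.sum_eq_zero]
    intro l hl
    have : l ≠ j := by
      rintro rfl
      exact (Finset.mem_compl.1 hl) h
    simp [ev, this]
  · rw [ct_ev j v Y h]
    rfl

lemma bdry_eq (V : Submodule K (Finset (Fin n) → K)) : bdry V = bd (ct (K := K)) V := by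
  apply le_antisymm
  · unfold bdry
    rw [span_le]
    rintro _ ⟨j, v, hv, rfl⟩
    rw [contr_eq]
    exact mem_bd _ _ hv
  · apply bd_le
    intro α v hv
    rw [← sum_ev α, map_sum, LinearMap.sum_apply]
    refine sum_mem fun j _ => ?_
    rw [map_smul, LinearMap.smul_apply, ← contr_eq]
    exact Submodule.smul_mem _ _ (subset_span ⟨j, v, hv, rfl⟩)

/-! ### extension of scalars -/

variable {L : Type} [Field L] (a : K →+* L)

/-- coordinatewise extension -/
def emb {X : Type} (v : X → K) : X → L := fun Y => a (v Y)

/-- the extended subspace -/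
def ex {X : Type} (V : Submodule K (X → K)) : Submodule L (X → L) :=
  span L (emb a '' (V : Set (X → K)))

lemma emb_mem {X : Type} {V : Submodule K (X → K)} {v : X → K} (hv : v ∈ V) :
    emb a v ∈ ex a V := subset_span ⟨v, hv, rfl⟩

lemma emb_add {X : Type} (v w : X → K) : emb a (v + w) = emb a v + emb a w := by
  funext Y; simp [emb]

lemma emb_smul {X : Type} (r : K) (v : X → K) : emb a (r • v) = a r • emb a v := by
  funext Y; simp [emb]

lemma emb_zero {X : Type} : emb a (0 : X → K) = 0 := by
  funext Y; simp [emb]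

lemma emb_indep {X : Type} [Fintype X] [DecidableEq X] {m : ℕ} (b : Fin m → X → K)
    (h : LinearIndependent K b) : LinearIndependent L (fun j => emb a (b j)) := by
  classical
  obtain ⟨G, hG⟩ : ∃ G : (X → K) →ₗ[K] (Fin m → K), ∀ j, G (b j) = Pi.single j 1 := by
    have hi : LinearMap.ker (Fintype.linearCombination K b) = ⊥ := by
      rw [LinearMap.ker_eq_bot']
      intro c hc
      rw [Fintype.linearCombination_apply] at hc
      funext j
      exact (Fintype.linearIndependent_iff.1 h) c hc j
    obtain ⟨G, hG⟩ := LinearMap.exists_leftInverse_of_injective _ hi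
    refine ⟨G, fun j => ?_⟩
    have := LinearMap.congr_fun hG (Pi.single j 1)
    simpa using this
  rw [Fintype.linearIndependent_iff]
  intro c hc k
  have h1 : ∀ j, ∑ Y, a (G (Pi.single Y 1) k) * emb a (b j) Y = a (G (b j) k) := by
    intro j
    have h2 : b j = ∑ Y, b j Y • (Pi.single Y 1 : X → K) := by
      funext Z
      simp [Finset.sum_apply, Pi.single_apply]
    conv_rhs => rw [h2]
    rw [map_sum, Finset.sum_apply, map_sum]
    refine Finset.sum_congr rfl fun Y _ => ?_
    rw [map_smul, Pi.smul_apply, smul_eq_mul, map_mul, mul_comm]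
    rfl
  have h3 : ∑ Y, a (G (Pi.single Y 1) k) * (∑ j, c j • emb a (b j)) Y = 0 := by
    rw [hc]
    simp
  have h4 : ∑ Y, a (G (Pi.single Y 1) k) * (∑ j, c j • emb a (b j)) Y =
      ∑ j, c j * a (G (b j) k) := by
    simp only [Finset.sum_apply, Pi.smul_apply, smul_eq_mul, Finset.mul_sum]
    rw [Finset.sum_comm]
    refine Finset.sum_congr rfl fun j _ => ?_
    rw [← h1 j, Finset.mul_sum]
    exact Finset.sum_congr rfl fun Y _ => by ring
  rw [h4] at h3
  simpa [hG, Pi.single_apply] using h3

lemma finrank_ex {X : Type} [Fintype X] [DecidableEq X] (V : Submodule K (X → K)) :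
    finrank L (ex a V) = finrank K V := by
  classical
  let b := finBasis K V
  have hb : LinearIndependent K (fun j => (b j : X → K)) :=
    b.linearIndependent.map' _ (Submodule.ker_subtype _)
  have h1 := emb_indep a _ hb
  have h2 : ex a V = span L (Set.range fun j => emb a (b j : X → K)) := by
    apply le_antisymm
    · unfold ex
      rw [span_le]
      rintro _ ⟨v, hv, rfl⟩
      have h3 : v = ∑ j, (b.repr ⟨v, hv⟩ j) • (b j : X → K) := by
        have h5 := congrArg V.subtype (b.sum_repr ⟨v, hv⟩)
        rw [map_sum] at h5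
        simp only [map_smul, Submodule.subtype_apply] at h5
        exact h5.symm
      have h4 : emb a v = ∑ j, a (b.repr ⟨v, hv⟩ j) • emb a (b j : X → K) := by
        funext Y
        conv_lhs => rw [h3]
        simp [emb, Finset.sum_apply]
      rw [SetLike.mem_coe, h4]
      exact sum_mem fun j _ => Submodule.smul_mem _ _ (subset_span ⟨j, rfl⟩)
    · rw [span_le]
      rintro _ ⟨j, rfl⟩
      exact emb_mem a (b j).2
  rw [h2, finrank_span_eq_card h1, Fintype.card_fin]

lemma contr_emb (j : Fin n) (v : Finset (Fin n) → K) : contr j (emb a v) = emb a (contr j v) := by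
  funext Y
  by_cases h : j ∈ Y
  · simp [contr, emb, h]
  · simp [contr, emb, h]

lemma contr_add (j : Fin n) (v w : Finset (Fin n) → K) : contr j (v + w) = contr j v + contr j w := by
  rw [contr_eq, contr_eq, contr_eq, map_add]

lemma contr_smul (j : Fin n) (r : K) (v : Finset (Fin n) → K) :
    contr j (r • v) = r • contr j v := by
  rw [contr_eq, contr_eq, map_smul]

lemma bdry_ex (V : Submodule K (Finset (Fin n) → K)) : bdry (ex a V) = ex a (bdry V) := by
  apply le_antisymm
  · unfold bdry
    rw [span_le]
    rintro _ ⟨j, w, hw, rfl⟩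
    unfold ex at hw
    rw [SetLike.mem_coe]
    induction hw using Submodule.span_induction with
    | mem x hx =>
      obtain ⟨v, hv, rfl⟩ := hx
      rw [contr_emb]
      exact emb_mem a (subset_span ⟨j, v, hv, rfl⟩)
    | zero =>
      have : contr j (0 : Finset (Fin n) → L) = 0 := by rw [contr_eq, map_zero]
      rw [this]
      exact zero_mem _
    | add x y _ _ hx hy => rw [contr_add]; exact add_mem hx hy
    | smul r x _ hx => rw [contr_smul]; exact Submodule.smul_mem _ _ hx
  · unfold ex
    rw [span_le]
    rintro _ ⟨v, hv, rfl⟩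
    unfold bdry at hv
    rw [SetLike.mem_coe] at hv ⊢
    induction hv using Submodule.span_induction with
    | mem x hx =>
      obtain ⟨j, v, hv, rfl⟩ := hx
      rw [← contr_emb]
      exact subset_span ⟨j, _, emb_mem a hv, rfl⟩
    | zero => rw [emb_zero]; exact zero_mem _
    | add x y _ _ hx hy => rw [emb_add]; exact add_mem hx hy
    | smul r x _ hx => rw [emb_smul]; exact Submodule.smul_mem _ _ hx

lemma ex_gr {k : ℕ} {V : Submodule K (Finset (Fin n) → K)} (h : V ≤ gr K n k) :
    ex a V ≤ gr L n k := by
  unfold ex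
  rw [span_le]
  rintro _ ⟨v, hv, rfl⟩ Y hY
  change a (v Y) = 0
  rw [h hv Y hY, map_zero]

open Pool.Agent.TH393.Lk (Fm SS)

/-- Kruskal-Katona for subspaces over any field. -/
theorem kkf {k : ℕ} {V : Submodule K (Finset (Fin n) → K)} (hV : V ≤ gr K n k) :
    Fm k (finrank K V) ≤ finrank K (bdry V) := by
  let a := algebraMap K (AlgebraicClosure K)
  have h := kk' (ex_gr a hV)
  rw [← bdry_eq, bdry_ex, finrank_ex, finrank_ex] at h
  exact h

/-- The gap theorem for subspaces over any field. -/
theorem gapf (m : ℕ) (β : ℕ → ℕ) (hβ : ∀ j, j + 1 < m → β j ≤ β (j + 1)) (ρ : ℕ)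
    (V : Submodule K (Finset (Fin n) → K)) (hV : V ≤ gr K n (ρ + m))
    (h1 : Fm (ρ + m) (finrank K V - 1) ≤ SS ρ m β) (h2 : SS ρ m β < finrank K (bdry V)) :
    Fm (ρ + m) (finrank K V - 1) + ρ ≤ finrank K (bdry V) := by
  let a := algebraMap K (AlgebraicClosure K)
  have h := gap m β hβ ρ (ex a V) (ex_gr a hV)
  rw [← bdry_eq, bdry_ex, finrank_ex, finrank_ex] at h
  exact h h1 h2

end Pool.Agent.KS6_31.SH
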