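import Mathlib
import Pool.Agent.KS6_31.Mink3

set_option autoImplicit false

/-! # Shears `(α, β + s α)` in Littlewood's conjecture -/

open Filter Topology

namespace Pool.Agent.KS6_31

/-- `q ‖qα‖ ‖qβ‖ < ε` for infinitely many `q` -/
def Good (ε α β : ℝ) : Prop :=
  ∃ᶠ q : ℕ in atTop, (q : ℝ) * |q * α - round (q * α)| * |q * β - round (q * β)| < ε

lemma good_of_points {ε α β : ℝ}
    (h : ∀ K : ℕ, ∃ q p r : ℤ, (K : ℤ) ≤ |q| ∧
      |(q : ℝ)| * |α * q - p| * |β * q - r| < ε) : Good ε α β := by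
  rw [Good, frequently_atTop]
  intro K
  obtain ⟨q, p, r, hq, hlt⟩ := h K
  refine ⟨q.natAbs, by have := Int.natCast_natAbs q; omega, ?_⟩
  have key : ∀ (γ : ℝ) (m : ℤ),
      |(q.natAbs : ℝ) * γ - round ((q.natAbs : ℝ) * γ)| ≤ |γ * q - m| := by
    intro γ m
    rcases le_total 0 q with h0 | h0
    · have e : (q.natAbs : ℝ) = (q : ℝ) := by
        rw [Nat.cast_natAbs, abs_of_nonneg h0]
      rw [e, mul_comm]
      exact round_le _ _
    · have e : (q.natAbs : ℝ) = -(q : ℝ) := by
        rw [Nat.cast_natAbs, abs_of_nonpos h0]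
        push_cast
        ring
      rw [e]
      refine (round_le _ (-m)).trans (le_of_eq ?_)
      rw [← abs_neg]
      congr 1
      push_cast
      ring
  have e : ((q.natAbs : ℕ) : ℝ) = |(q : ℝ)| := by
    rw [Nat.cast_natAbs, Int.cast_abs]
  refine lt_of_le_of_lt ?_ hlt
  have k1 := key α p
  have k2 := key β r
  rw [e] at k1 k2 ⊢
  gcongr

lemma good_mono {ε ε' α β : ℝ} (h : ε ≤ ε') (hg : Good ε α β) : Good ε' α β := by
  unfold Good at *
  exact hg.mono fun q hq => hq.trans_le h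

/-- rational `α` -/
lemma good_of_rat {ε β : ℝ} (hε : 0 < ε) (a : ℚ) : Good ε a β := by
  apply good_of_points
  intro K
  refine ⟨(K + 1 : ℕ) * a.den, (K + 1 : ℕ) * a.num, 0, ?_, ?_⟩
  · have h1 : (1 : ℤ) ≤ a.den := by exact_mod_cast a.pos
    rw [abs_of_nonneg (by positivity)]
    push_cast
    nlinarith
  · have h2 : (a : ℝ) * (((K + 1 : ℕ) * a.den : ℤ) : ℝ) - (((K + 1 : ℕ) * a.num : ℤ) : ℝ) = 0 := by
      push_cast
      have h3 : (a : ℝ) * a.den = a.num := by
        exact_mod_cast Rat.mul_den_eq_num a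
      linear_combination ((K : ℝ) + 1) * h3
    rw [h2]
    simpa using hε

/-- small multiples of an irrational number -/
lemma small_mult {α : ℝ} (hα : Irrational α) (K : ℕ) :
    ∃ c : ℝ, 0 < c ∧ ∀ q p : ℤ, |q| < K → ¬ (q = 0 ∧ p = 0) → c ≤ |α * q - p| := by
  induction K with
  | zero =>
    refine ⟨1, one_pos, fun q p h _ => ?_⟩
    have := abs_nonneg q
    simp at h
    omega
  | succ K ih =>
    obtain ⟨c, hc, h⟩ := ih
    rcases Nat.eq_zero_or_pos K with rfl | hK
    · refine ⟨1, one_pos, fun q p hq hqp => ?_⟩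
      have hq0 : q = 0 := by
        simpa using hq
      subst hq0
      have hp : p ≠ 0 := fun h0 => hqp ⟨rfl, h0⟩
      have : (1 : ℤ) ≤ |p| := Int.one_le_abs hp
      have h1 : (1 : ℝ) ≤ |(p : ℝ)| := by exact_mod_cast this
      simpa using h1
    · set d : ℝ := |α * K - round (α * K)| with hd
      have hd0 : 0 < d := by
        rw [hd, abs_pos]
        have : Irrational (α * K - round (α * K)) :=
          (hα.mul_natCast hK.ne').sub_intCast _
        exact this.ne_zero
      refine ⟨min c d, lt_min hc hd0, fun q p hq hqp => ?_⟩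
      rcases lt_or_ge |q| K with h1 | h1
      · exact (min_le_left _ _).trans (h q p h1 hqp)
      · have h2 : |q| = K := by push_cast at hq; omega
        refine (min_le_right _ _).trans ?_
        rcases le_total 0 q with h0 | h0
        · rw [abs_of_nonneg h0] at h2
          rw [h2]
          exact_mod_cast round_le (α * K) p
        · rw [abs_of_nonpos h0] at h2
          have h3 : q = -K := by omega
          rw [h3]
          refine (round_le (α * K) (-p)).trans (le_of_eq ?_)
          rw [← abs_neg]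
          congr 1
          push_cast
          ring

lemma uv_bound {u v : ℝ} (hu : 0 ≤ u) (hv : 0 ≤ v) (h : u + v ≤ 1) : u * v ^ 2 ≤ 4 / 27 := by
  have h1 : u ≤ 1 - v := by linarith
  have h2 : u * v ^ 2 ≤ (1 - v) * v ^ 2 := by gcongr
  have h3 : (1 - v) * v ^ 2 ≤ 4 / 27 := by
    nlinarith [mul_nonneg (sq_nonneg (v - 2 / 3)) (show (0 : ℝ) ≤ v + 1 / 3 by linarith)]
  linarith

/-- one scale -/
lemma one_scale {α : ℝ} (hα : Irrational α) (β ε x M : ℝ) (hε : 0 < ε) (hM : 0 < M) (n : ℕ) :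
    ∃ (q p r : ℤ) (t : ℝ), x ≤ t ∧ t ≤ x + M ∧ (n : ℤ) ≤ |q| ∧
      ∀ s : ℝ, x ≤ s → s ≤ x + M → |s - t| ≤ 305 / 1000 * ε ^ 2 * M →
        |(q : ℝ)| * |α * q - p| * |(β * q - r) + s * (α * q - p)| < ε := by
  obtain ⟨c, hc, hsm⟩ := small_mult hα n
  set ρ : ℝ := 362 / 100 / ε with hρ
  have hρ0 : 0 < ρ := by positivity
  set κ : ℝ := x + M / 2 with hκ
  set Y : ℝ := 1 + ρ / (M * c) with hY
  have hY1 : 1 ≤ Y := by
    have : 0 < ρ / (M * c) := by positivity
    linarith
  have hY0 : 0 < Y := by linarith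
  have hYc : ρ / (M * Y) < c := by
    rw [div_lt_iff₀ (by positivity)]
    have : ρ / (M * c) < Y := by linarith
    rw [div_lt_iff₀ (by positivity)] at this
    linarith
  obtain ⟨q, p, r, h0, hsum⟩ := exists_point α β κ (61 / 10 / ρ * (M * Y) * Y) (ρ / (M * Y)) (1 / Y)
    (by positivity) (by positivity) (by positivity) (by
      have : 61 / 10 / ρ * (M * Y) * Y * (ρ / (M * Y)) * (1 / Y) = 61 / 10 := by
        field_simp
      rw [this]; norm_num)
  set a : ℝ := α * q - p with ha
  set L : ℝ := (β * q - r) + κ * a with hL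
  set u : ℝ := |(q : ℝ)| / (61 / 10 / ρ * (M * Y) * Y) with hu
  set v : ℝ := |a| / (ρ / (M * Y)) with hv
  set w : ℝ := |L| / (1 / Y) with hw
  have hu0 : 0 ≤ u := by positivity
  have hv0 : 0 ≤ v := by positivity
  have hw0 : 0 ≤ w := by positivity
  have hqu : |(q : ℝ)| = 61 / 10 / ρ * (M * Y) * Y * u := by
    rw [hu]; field_simp
  have hav : |a| = ρ / (M * Y) * v := by
    rw [hv]; field_simp
  have hLw : |L| = 1 / Y * w := by
    rw [hw]; field_simp
  -- size of `q`
  have hva : v < 1 := by linarith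
  have hwa : w < 1 := by linarith
  have halt : |a| < c := by
    rw [hav]
    have : ρ / (M * Y) * v ≤ ρ / (M * Y) * 1 := by
      gcongr
    linarith
  have hLlt : |L| < 1 := by
    rw [hLw]
    have h1 : 1 / Y ≤ 1 := by
      rw [div_le_one hY0]; exact hY1
    have : 1 / Y * w ≤ 1 * w := by gcongr
    linarith
  have hqp : ¬ (q = 0 ∧ p = 0) := by
    rintro ⟨hq, hp⟩
    have hr : r ≠ 0 := fun hr => h0 ⟨hq, hp, hr⟩
    have h1 : (1 : ℤ) ≤ |r| := Int.one_le_abs hr
    have h2 : (1 : ℝ) ≤ |(r : ℝ)| := by exact_mod_cast h1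
    have h3 : L = -r := by
      rw [hL, ha, hq, hp]; push_cast; ring
    rw [h3, abs_neg] at hLlt
    linarith
  have hqn : (n : ℤ) ≤ |q| := by
    by_contra hlt
    have := hsm q p (by omega) hqp
    linarith
  have ha0 : a ≠ 0 := by
    obtain ⟨c', hc', hsm'⟩ := small_mult hα (q.natAbs + 1)
    have := hsm' q p (by have := Int.natCast_natAbs q; push_cast; omega) hqp
    intro h
    rw [← ha, h, abs_zero] at this
    linarith
  have ha0' : 0 < |a| := abs_pos.2 ha0
  have hLs : ∀ s : ℝ, (β * q - r) + s * a = L + (s - κ) * a := by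
    intro s; rw [hL]; ring
  rcases le_or_gt |L| (M / 2 * |a|) with hcase | hcase
  · -- the zero is in the interval
    have hLa : |L / a| ≤ M / 2 := by
      rw [abs_div, div_le_iff₀ ha0']; exact hcase
    obtain ⟨hl1, hl2⟩ := abs_le.1 hLa
    refine ⟨q, p, r, κ - L / a, by rw [hκ]; linarith, by rw [hκ]; linarith, hqn, ?_⟩
    intro s _ _ hst
    rw [← ha, hLs s]
    have e1 : L + (s - κ) * a = a * (s - (κ - L / a)) := by
      field_simp; ring
    rw [e1, abs_mul]
    have e2 : |(q : ℝ)| * |a| * (|a| * |s - (κ - L / a)|) =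
        61 / 10 * ρ / M * (u * v ^ 2) * |s - (κ - L / a)| := by
      rw [hqu, hav]; field_simp
    rw [e2]
    have h1 := uv_bound hu0 hv0 (by linarith)
    calc 61 / 10 * ρ / M * (u * v ^ 2) * |s - (κ - L / a)|
        ≤ 61 / 10 * ρ / M * (4 / 27) * (305 / 1000 * ε ^ 2 * M) := by gcongr
      _ = (61 / 10 * (362 / 100) * (4 / 27) * (305 / 1000)) * ε := by
          rw [hρ]; field_simp
      _ < 1 * ε := by
          apply mul_lt_mul_of_pos_right _ hε
          norm_num
      _ = ε := one_mul ε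
  · -- the form is large
    refine ⟨q, p, r, x, le_rfl, by linarith, hqn, ?_⟩
    intro s hs1 hs2 _
    rw [← ha, hLs s]
    have hsκ : |s - κ| ≤ M / 2 := by
      rw [abs_le, hκ]; constructor <;> linarith
    have h1 : |L + (s - κ) * a| ≤ 2 * |L| := by
      refine (abs_add_le _ _).trans ?_
      rw [abs_mul]
      have : |s - κ| * |a| ≤ M / 2 * |a| := by gcongr
      linarith
    have h2 : |a| ≤ 2 / M * |L| := by
      rw [div_mul_eq_mul_div, le_div_iff₀ hM]
      nlinarith
    have h3 := uv_bound hu0 hw0 (by linarith)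
    calc |(q : ℝ)| * |a| * |L + (s - κ) * a|
        ≤ |(q : ℝ)| * (2 / M * |L|) * (2 * |L|) := by gcongr
      _ = 4 * (61 / 10) / ρ * (u * w ^ 2) := by
          rw [hqu, hLw]; field_simp; ring
      _ ≤ 4 * (61 / 10) / ρ * (4 / 27) := by gcongr
      _ = (4 * (61 / 10) * (4 / 27) / (362 / 100)) * ε := by
          rw [hρ]; field_simp
      _ < 1 * ε := by
          apply mul_lt_mul_of_pos_right _ hε
          norm_num
      _ = ε := one_mul ε

/-- **Shears.** Every interval of length `M` contains a point `y` such that all integers `s` of the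
interval with `|s - y| ≤ 3/10 ε ^ 2 M` are good. -/
theorem shear (α β ε x M : ℝ) (hε : 0 < ε) (hM : 0 < M) :
    ∃ y : ℝ, x ≤ y ∧ y ≤ x + M ∧ ∀ s : ℤ, x ≤ s → (s : ℝ) ≤ x + M →
      |(s : ℝ) - y| ≤ 3 / 10 * ε ^ 2 * M → Good ε α (β + s * α) := by
  by_cases hα : Irrational α
  swap
  · obtain ⟨a, ha⟩ := not_not.1 hα
    subst ha
    exact ⟨x, le_rfl, by linarith, fun s _ _ _ => good_of_rat hε a⟩
  choose q p r t ht1 ht2 hq hgood using fun n => one_scale hα β ε x M hε hM n
  obtain ⟨y, hy, hcl⟩ := (isCompact_Icc (a := x) (b := x + M)).exists_mapClusterPt_of_frequently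
    (l := atTop) (f := t) (Frequently.of_forall fun n => ⟨ht1 n, ht2 n⟩)
  refine ⟨y, hy.1, hy.2, fun s hs1 hs2 hsy => ?_⟩
  apply good_of_points
  intro K
  have hpos : 0 < 5 / 1000 * ε ^ 2 * M := by positivity
  have hfr : ∃ᶠ n in atTop, |t n - y| < 5 / 1000 * ε ^ 2 * M := by
    rw [mapClusterPt_iff_frequently] at hcl
    refine (hcl _ (Metric.ball_mem_nhds y hpos)).mono fun z hz => ?_
    rwa [Metric.mem_ball, Real.dist_eq] at hz
  obtain ⟨n, hn, hKn⟩ := (hfr.and_eventually (eventually_ge_atTop K)).exists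
  refine ⟨q n, p n, r n + s * p n, ?_, ?_⟩
  · have := hq n
    have h2 : (K : ℤ) ≤ n := by exact_mod_cast hKn
    omega
  · have h1 := hgood n s hs1 hs2 (by
      have : (s : ℝ) - t n = (s - y) - (t n - y) := by ring
      rw [this]
      refine (abs_sub _ _).trans ?_
      linarith)
    have e : (β + s * α) * (q n : ℝ) - ((r n + s * p n : ℤ) : ℝ) =
        (β * q n - r n) + s * (α * q n - p n) := by
      push_cast; ring
    rw [e]
    exact h1

end Pool.Agent.KS6_31
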