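import Mathlib
import Pool.Agent.KS6_31.Shear
import Pool.Agent.KS6_31.Porous

set_option autoImplicit false

/-! # Shears along polynomial sequences -/

open Filter Topology Finset

namespace Pool.Agent.KS6_31

/-- An interval of good integers. -/
theorem shear_interval (α β ε x M : ℝ) (hε : 0 < ε) (hε1 : ε ≤ 1 / 2) (hM : 0 < M) :
    ∃ y z : ℝ, x ≤ y ∧ z ≤ x + M ∧ z - y = 3 / 10 * ε ^ 2 * M ∧
      ∀ s : ℤ, y ≤ s → (s : ℝ) ≤ z → Good ε α (β + s * α) := by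
  obtain ⟨y, h1, h2, h3⟩ := shear α β ε x M hε hM
  set R := 3 / 10 * ε ^ 2 * M with hR
  have hR0 : 0 < R := by positivity
  have hR2 : 2 * R ≤ M := by
    have : ε ^ 2 ≤ 1 / 4 := by nlinarith
    nlinarith
  rcases le_or_gt (y + R) (x + M) with h | h
  · refine ⟨y, y + R, h1, h, by ring, fun s hs1 hs2 => h3 s (by linarith) (by linarith) ?_⟩
    rw [abs_le]; constructor <;> linarith
  · refine ⟨y - R, y, by linarith, h2, by ring, fun s hs1 hs2 => h3 s (by linarith)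
      (by linarith) ?_⟩
    rw [abs_le]; constructor <;> linarith

lemma good_neg {ε α β : ℝ} (h : Good ε (-α) β) : Good ε α β := by
  apply good_of_points
  intro K
  unfold Good at h
  obtain ⟨q, hq, hlt⟩ := (frequently_atTop.1 h) K
  refine ⟨q, -round ((q : ℝ) * -α), round ((q : ℝ) * β), by simpa using hq, ?_⟩
  have e1 : |α * ((q : ℤ) : ℝ) - ((-round ((q : ℝ) * -α) : ℤ) : ℝ)| =
      |(q : ℝ) * -α - round ((q : ℝ) * -α)| := by
    rw [← abs_neg]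
    congr 1
    push_cast
    ring
  have e2 : |β * ((q : ℤ) : ℝ) - (round ((q : ℝ) * β) : ℝ)| =
      |(q : ℝ) * β - round ((q : ℝ) * β)| := by
    congr 1
    push_cast
    ring
  rw [e1, e2]
  simpa using hlt

lemma good_add_int {ε α β : ℝ} (m : ℤ) (h : Good ε α β) : Good ε α (β + m) := by
  apply good_of_points
  intro K
  unfold Good at h
  obtain ⟨q, hq, hlt⟩ := (frequently_atTop.1 h) K
  refine ⟨q, round ((q : ℝ) * α), round ((q : ℝ) * β) + q * m, by simpa using hq, ?_⟩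
  have e1 : |α * ((q : ℤ) : ℝ) - (round ((q : ℝ) * α) : ℝ)| =
      |(q : ℝ) * α - round ((q : ℝ) * α)| := by
    congr 1
    push_cast
    ring
  have e2 : |(β + m) * ((q : ℤ) : ℝ) - ((round ((q : ℝ) * β) + q * m : ℤ) : ℝ)| =
      |(q : ℝ) * β - round ((q : ℝ) * β)| := by
    congr 1
    push_cast
    ring
  rw [e1, e2]
  simpa using hlt

/-- increasing sequences with regular steps -/
lemma mono_block (α β ε : ℝ) (hε : 0 < ε) (hε1 : ε ≤ 1 / 2) (g : ℕ → ℤ) (a m : ℕ) (hm : 1 ≤ m)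
    (D : ℝ) (hD : 0 < D)
    (h : ∀ i, a ≤ i → i < a + m → D ≤ (g (i + 1) : ℝ) - g i ∧ (g (i + 1) : ℝ) - g i ≤ 2 * D)
    (k : ℕ) (hk : (k : ℝ) ≤ 3 / 20 * ε ^ 2 * m) :
    ∃ a', a ≤ a' ∧ a' + k ≤ a + m + 1 ∧
      ∀ i, a' ≤ i → i < a' + k → Good ε α (β + g i * α) := by
  rcases Nat.eq_zero_or_pos k with rfl | hk0
  · exact ⟨a, le_rfl, by omega, fun i h1 h2 => by omega⟩
  have hmR : (1 : ℝ) ≤ m := by exact_mod_cast hm
  have hg := growth (f := fun i => (g i : ℝ)) h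
  have htot := (hg m a le_rfl le_rfl).1
  have hM : 0 < (g (a + m) : ℝ) - g a := by
    have : 0 < D * m := by positivity
    linarith
  obtain ⟨y, z, h1, h2, h3, h4⟩ := shear_interval α β ε (g a) ((g (a + m) : ℝ) - g a) hε hε1 hM
  have h2' : z ≤ g (a + m) := by linarith
  have hyz : 2 * D * k ≤ z - y := by
    rw [h3]
    have h5 : 2 * D * (k : ℝ) ≤ 2 * D * (3 / 20 * ε ^ 2 * m) := by gcongr
    have h6 : 3 / 10 * ε ^ 2 * (D * m) ≤ 3 / 10 * ε ^ 2 * ((g (a + m) : ℝ) - g a) := by gcongr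
    linarith
  have hex : ∃ j, y ≤ (g (a + j) : ℝ) := ⟨m, by
    have : 0 ≤ 2 * D * (k : ℝ) := by positivity
    linarith⟩
  classical
  set j₁ := Nat.find hex with hj₁
  have hj₁s : y ≤ (g (a + j₁) : ℝ) := Nat.find_spec hex
  have hj₁m : j₁ ≤ m := Nat.find_min' hex (by
    have : 0 ≤ 2 * D * (k : ℝ) := by positivity
    linarith)
  have hup : (g (a + j₁) : ℝ) ≤ y + 2 * D := by
    rcases Nat.eq_zero_or_pos j₁ with h0 | h0
    · rw [h0, add_zero]
      linarith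
    · have h5 : ¬ (y ≤ (g (a + (j₁ - 1)) : ℝ)) := Nat.find_min hex (by omega)
      have h6 := (h (a + (j₁ - 1)) (by omega) (by omega)).2
      have e : a + (j₁ - 1) + 1 = a + j₁ := by omega
      rw [e] at h6
      linarith
  have hlow : ∀ j, j₁ ≤ j → j ≤ m → y ≤ (g (a + j) : ℝ) := by
    intro j hj1 hj2
    have h5 := (hg (j - j₁) (a + j₁) (by omega) (by omega)).1
    have e : a + j₁ + (j - j₁) = a + j := by omega
    rw [e] at h5
    have : 0 ≤ D * ((j - j₁ : ℕ) : ℝ) := by positivity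
    linarith
  have hmain : ∀ j, j < k → j₁ + j ≤ m ∧ (g (a + (j₁ + j)) : ℝ) ≤ y + 2 * D * (j + 1) := by
    intro j
    induction j with
    | zero =>
      intro _
      refine ⟨hj₁m, ?_⟩
      simpa using hup
    | succ j ih =>
      intro hj
      obtain ⟨h5, h6⟩ := ih (by omega)
      have hjk : (j : ℝ) + 1 + 1 ≤ k := by exact_mod_cast hj
      have h7 : j₁ + j ≠ m := by
        intro heq
        rw [heq] at h6
        have h8 : 2 * D * ((j : ℝ) + 1 + 1) ≤ 2 * D * k := by gcongr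
        nlinarith
      have h9 : j₁ + (j + 1) ≤ m := by omega
      refine ⟨h9, ?_⟩
      have h10 := (h (a + (j₁ + j)) (by omega) (by omega)).2
      have e : a + (j₁ + j) + 1 = a + (j₁ + (j + 1)) := by omega
      rw [e] at h10
      push_cast
      linarith
  refine ⟨a + j₁, by omega, ?_, fun i hi1 hi2 => ?_⟩
  · have := (hmain (k - 1) (by omega)).1
    omega
  · obtain ⟨j, rfl⟩ := Nat.exists_eq_add_of_le hi1
    have hj : j < k := by omega
    obtain ⟨h5, h6⟩ := hmain j hj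
    have hjk : (j : ℝ) + 1 ≤ k := by exact_mod_cast hj
    have h8 : 2 * D * ((j : ℝ) + 1) ≤ 2 * D * k := by gcongr
    have e : a + j₁ + j = a + (j₁ + j) := by omega
    rw [e]
    exact h4 _ (hlow (j₁ + j) (by omega) h5) (by linarith)

lemma reg_block (α β ε : ℝ) (hε : 0 < ε) (hε1 : ε ≤ 1 / 2) (g : ℕ → ℤ) (a m : ℕ) (hm : 1 ≤ m)
    (h : Reg (dif fun i => (g i : ℝ)) a m) (k : ℕ) (hk : (k : ℝ) ≤ 3 / 20 * ε ^ 2 * m) :
    ∃ a', a ≤ a' ∧ a' + k ≤ a + m + 1 ∧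
      ∀ i, a' ≤ i → i < a' + k → Good ε α (β + g i * α) := by
  obtain ⟨D, σ, hD, hσ, hh⟩ := h
  rcases hσ with rfl | rfl
  · exact mono_block α β ε hε hε1 g a m hm D hD
      (fun i h1 h2 => by simpa [dif] using hh i h1 h2) k hk
  · obtain ⟨a', h1, h2, h3⟩ := mono_block (-α) β ε hε hε1 (fun i => - g i) a m hm D hD
      (fun i h1 h2 => by
        have := hh i h1 h2
        simp only [dif] at this
        push_cast
        constructor <;> linarith [this.1, this.2]) k hk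
    refine ⟨a', h1, h2, fun i hi1 hi2 => ?_⟩
    have := h3 i hi1 hi2
    have e : β + ((-g i : ℤ) : ℝ) * -α = β + g i * α := by push_cast; ring
    rw [e] at this
    exact good_neg this

/-- porosity for polynomial sequences -/
lemma poly_porous (α β ε : ℝ) (hε : 0 < ε) (hε1 : ε ≤ 1 / 2) (g : ℕ → ℤ) (e : ℕ) (c : ℝ)
    (hc : c ≠ 0) (hg : ∀ i, dif^[e + 1] (fun i => (g i : ℝ)) i = c) (a n : ℕ)
    (hn : 16 ^ (e + 1) / ε ^ 2 ≤ (n : ℝ)) :
    ∃ a' n' : ℕ, a ≤ a' ∧ a' + n' ≤ a + n ∧ ε ^ 2 / 16 ^ (e + 1) * n ≤ n' ∧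
      ∀ i, a' ≤ i → i < a' + n' → ¬ ¬ Good ε α (β + g i * α) := by
  have hε2 : 0 < ε ^ 2 := by positivity
  have hε4 : ε ^ 2 ≤ 1 / 4 := by nlinarith
  have h16 : (1 : ℝ) ≤ 16 ^ e := one_le_pow₀ (by norm_num)
  have hn64 : (64 * 16 ^ e : ℝ) ≤ n := by
    refine le_trans ?_ hn
    rw [le_div_iff₀ hε2, pow_succ (16 : ℝ) e]
    nlinarith
  have hn64' : 64 * 16 ^ e ≤ n := by exact_mod_cast hn64
  obtain ⟨a₁, n₁, h1, h2, h3, h4⟩ := reg_iter e _ c hc hg a n (by omega)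
  have h3R : (n : ℝ) ≤ 16 ^ e * n₁ := by exact_mod_cast h3
  have hn₁ : 64 ≤ n₁ := by
    by_contra hcon
    have h5 : n₁ ≤ 63 := by omega
    have h6 : 16 ^ e * n₁ ≤ 16 ^ e * 63 := Nat.mul_le_mul_left _ h5
    have h7 : 0 < 16 ^ e := by positivity
    omega
  have hn₁R : 16 / ε ^ 2 ≤ (n₁ : ℝ) := by
    rw [div_le_iff₀ hε2]
    rw [div_le_iff₀ hε2, pow_succ (16 : ℝ) e] at hn
    have h5 : (16 : ℝ) ^ e * 16 ≤ 16 ^ e * (n₁ * ε ^ 2) := by
      calc (16 : ℝ) ^ e * 16 ≤ n * ε ^ 2 := hn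
        _ ≤ (16 ^ e * n₁) * ε ^ 2 := by gcongr
        _ = 16 ^ e * (n₁ * ε ^ 2) := by ring
    exact le_of_mul_le_mul_left h5 (by positivity)
  -- the points `a₁, …, a₁ + n₁ - 1`
  obtain ⟨m, hm⟩ : ∃ m, n₁ = m + 1 := ⟨n₁ - 1, by omega⟩
  have hreg : Reg (dif fun i => (g i : ℝ)) a₁ m := by
    obtain ⟨D, σ, hD, hσ, hh⟩ := h4
    exact ⟨D, σ, hD, hσ, fun i hi1 hi2 => hh i hi1 (by omega)⟩
  set k := ⌊3 / 20 * ε ^ 2 * (m : ℝ)⌋₊ with hk
  have hk1 : (k : ℝ) ≤ 3 / 20 * ε ^ 2 * m := Nat.floor_le (by positivity)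
  have hk2 : 3 / 20 * ε ^ 2 * m < k + 1 := Nat.lt_floor_add_one _
  obtain ⟨a', g1, g2, g3⟩ := reg_block α β ε hε hε1 g a₁ m (by omega) hreg k hk1
  refine ⟨a', k, by omega, by omega, ?_, fun i hi1 hi2 => not_not.2 (g3 i hi1 hi2)⟩
  have hmR : (n₁ : ℝ) = m + 1 := by exact_mod_cast hm
  have h5 : 16 ≤ ε ^ 2 * n₁ := by
    rw [div_le_iff₀ hε2] at hn₁R
    linarith
  have h6 : ε ^ 2 / 16 ^ (e + 1) * n ≤ ε ^ 2 * n₁ / 16 := by
    rw [pow_succ (16 : ℝ) e]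
    rw [div_mul_eq_mul_div, div_le_div_iff₀ (by positivity) (by norm_num)]
    nlinarith
  nlinarith

open Classical in
/-- **Shears along polynomial sequences.** -/
theorem poly_count (α β ε : ℝ) (hε : 0 < ε) (hε1 : ε ≤ 1 / 2) (g : ℕ → ℤ) (e : ℕ) (c : ℝ)
    (hc : c ≠ 0) (hg : ∀ i, dif^[e + 1] (fun i => (g i : ℝ)) i = c) (n a : ℕ) :
    (((Finset.Ico a (a + n)).filter (fun i => ¬ Good ε α (β + g i * α))).card : ℝ) ≤
      2 * (n : ℝ) ^ (1 - ε ^ 2 / 16 ^ (e + 1) / 2) := by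
  have hε2 : 0 < ε ^ 2 := by positivity
  have hε4 : ε ^ 2 ≤ 1 / 4 := by nlinarith
  have h16 : (1 : ℝ) ≤ 16 ^ (e + 1) := one_le_pow₀ (by norm_num)
  refine porous_count _ (ε ^ 2 / 16 ^ (e + 1)) (by positivity) ?_ ?_ n a
  · rw [div_le_iff₀ (by positivity)]
    nlinarith
  · intro a n hn
    refine poly_porous α β ε hε hε1 g e c hc hg a n ?_
    rwa [one_div_div] at hn

end Pool.Agent.KS6_31
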