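import Mathlib
import Pool.Agent.KS6_31.ShearPoly

set_option autoImplicit false

/-! # Polynomials whose nonconstant coefficients are in `(1/b)(ℤ + ℤα)` -/

open Filter Topology Finset Polynomial

namespace Pool.Agent.KS6_31

lemma dif_iter (F : ℝ → ℝ) (n : ℕ) : ∀ i : ℕ,
    dif^[n] (fun k : ℕ => F (k : ℝ)) i = (fwdDiff 1)^[n] F (i : ℝ) := by
  induction n generalizing F with
  | zero => intro i; rfl
  | succ n ih =>
    intro i
    rw [Function.iterate_succ_apply, Function.iterate_succ_apply, ← ih]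
    have e : (dif fun k : ℕ => F (k : ℝ)) = fun k : ℕ => fwdDiff 1 F (k : ℝ) := by
      funext k
      simp [dif, fwdDiff]
    rw [e]

lemma dif_iter_poly (Q : ℝ[X]) (i : ℕ) :
    dif^[Q.natDegree] (fun k : ℕ => Q.eval (k : ℝ)) i = Q.leadingCoeff * (Q.natDegree.factorial : ℝ) := by
  rw [dif_iter (fun x => Q.eval x)]
  have h : (fun x => Q.eval x) = Q.eval := rfl
  rw [h, Polynomial.fwdDiff_iter_degree_eq_factorial]
  simp

/-- integer valued differences -/
noncomputable def gpart (v : ℕ → ℤ) (d b r : ℕ) (k : ℕ) : ℤ :=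
  ∑ j ∈ range (d + 1), v j * ((((b : ℤ) * k + r) ^ j - (r : ℤ) ^ j) / b)

lemma gpart_cast (v : ℕ → ℤ) (d b r : ℕ) (hb : 1 ≤ b) (k : ℕ) :
    (gpart v d b r k : ℝ) = ∑ j ∈ range (d + 1), (v j : ℝ) / b * ((((b : ℝ) * k + r)) ^ j - (r : ℝ) ^ j) := by
  unfold gpart
  push_cast
  refine Finset.sum_congr rfl fun j _ => ?_
  have hdvd : (b : ℤ) ∣ ((b : ℤ) * k + r) ^ j - (r : ℤ) ^ j := by
    have h1 : ((b : ℤ) * k + r) - r ∣ ((b : ℤ) * k + r) ^ j - (r : ℤ) ^ j := sub_dvd_pow_sub_pow _ _ j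
    refine dvd_trans ?_ h1
    exact ⟨k, by ring⟩
  have hb0 : ((b : ℤ) : ℝ) ≠ 0 := by
    have : b ≠ 0 := by omega
    exact_mod_cast this
  rw [Int.cast_div hdvd hb0]
  push_cast
  have hb1 : (b : ℝ) ≠ 0 := by exact_mod_cast hb0
  field_simp

lemma eval_as_sum (P : ℝ[X]) (d : ℕ) (hP : P.natDegree ≤ d) (x : ℝ) :
    P.eval x = ∑ j ∈ range (d + 1), P.coeff j * x ^ j := by
  exact Polynomial.eval_eq_sum_range' (n := d + 1) (by omega) x

open Classical in
lemma case_two (d : ℕ) (α ε : ℝ) (hε : 0 < ε) (hε1 : ε ≤ 1 / 2) (P : ℝ[X])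
    (hP : P.natDegree ≤ d) (b : ℕ) (hb : 1 ≤ b)
    (hbj : ∀ j, 1 ≤ j → ∃ u v : ℤ, (b : ℝ) * P.coeff j = u + v * α)
    (hirr : ∃ j, 1 ≤ j ∧ Irrational (P.coeff j)) (N : ℕ) (hbN : b * b ≤ N) :
    (((Finset.range N).filter (fun l : ℕ => ¬ Good ε α (P.eval (l : ℝ)))).card : ℝ) ≤
      4 * (N : ℝ) ^ (1 - ε ^ 2 / 16 ^ d / 4) := by
  have hbR : (1 : ℝ) ≤ b := by exact_mod_cast hb
  have hb0 : (b : ℝ) ≠ 0 := by linarith
  have hch : ∀ j, ∃ u v : ℤ, (j = 0 → u = 0 ∧ v = 0) ∧ (1 ≤ j → (b : ℝ) * P.coeff j = u + v * α) := by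
    intro j
    rcases Nat.eq_zero_or_pos j with h | h
    · exact ⟨0, 0, fun _ => ⟨rfl, rfl⟩, fun h1 => by omega⟩
    · obtain ⟨u, v, h1⟩ := hbj j h
      exact ⟨u, v, fun h0 => by omega, fun _ => h1⟩
  choose u v huv0 huv using hch
  obtain ⟨j₀, hj₀1, hj₀⟩ := hirr
  have hj₀d : j₀ ≤ d := by
    refine le_trans ?_ hP
    apply Polynomial.le_natDegree_of_ne_zero
    exact hj₀.ne_zero
  have hv₀ : v j₀ ≠ 0 := by
    intro h
    have h1 := huv j₀ hj₀1
    rw [h] at h1
    have h2 : P.coeff j₀ = ((u j₀ : ℚ) / (b : ℚ) : ℚ) := by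
      push_cast
      field_simp
      push_cast at h1
      linarith
    rw [h2] at hj₀
    exact Rat.not_irrational _ hj₀
  -- the polynomial `V`
  set V : ℝ[X] := ∑ j ∈ range (d + 1), C ((v j : ℝ) / b) * X ^ j with hV
  have hVc : ∀ j, j ≤ d → V.coeff j = (v j : ℝ) / b := by
    intro j hj
    rw [hV, Polynomial.finsetSum_coeff]
    simp only [Polynomial.coeff_C_mul, Polynomial.coeff_X_pow]
    rw [Finset.sum_eq_single j]
    · simp
    · intro i _ hij
      simp [Ne.symm hij]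
    · intro hnot
      exact absurd (Finset.mem_range.2 (by omega)) hnot
  have hVd : V.natDegree ≤ d := by
    rw [hV]
    refine Polynomial.natDegree_sum_le_of_forall_le _ _ fun j hj => ?_
    refine (Polynomial.natDegree_C_mul_X_pow_le _ _).trans ?_
    have := Finset.mem_range.1 hj
    omega
  have hV1 : 1 ≤ V.natDegree := by
    refine le_trans hj₀1 (Polynomial.le_natDegree_of_ne_zero ?_)
    rw [hVc j₀ hj₀d]
    have : (v j₀ : ℝ) ≠ 0 := by exact_mod_cast hv₀
    positivity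
  -- the sequence of shears
  have hgood : ∀ r k : ℕ, Good ε α (P.eval (r : ℝ) + gpart v d b r k * α) →
      Good ε α (P.eval (((b * k + r : ℕ)) : ℝ)) := by
    intro r k h
    have h1 := good_add_int (gpart u d b r k) h
    have e : P.eval (r : ℝ) + gpart v d b r k * α + (gpart u d b r k : ℝ) =
        P.eval (((b * k + r : ℕ)) : ℝ) := by
      rw [gpart_cast v d b r hb, gpart_cast u d b r hb, eval_as_sum P d hP, eval_as_sum P d hP,
        Finset.sum_mul, ← Finset.sum_add_distrib, ← Finset.sum_add_distrib]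
      refine Finset.sum_congr rfl fun j _ => ?_
      rcases Nat.eq_zero_or_pos j with h | h
      · subst h
        simp
      · have h2 : P.coeff j = u j / b + v j / b * α := by
          have := huv j h
          field_simp
          linarith
        rw [h2]
        push_cast
        ring
    rwa [e] at h1
  obtain ⟨e, he⟩ : ∃ e, V.natDegree = e + 1 := ⟨V.natDegree - 1, by omega⟩
  have hcount : ∀ r n : ℕ, (((Finset.Ico 0 (0 + n)).filter
      (fun i => ¬ Good ε α (P.eval (r : ℝ) + gpart v d b r i * α))).card : ℝ) ≤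
      2 * (n : ℝ) ^ (1 - ε ^ 2 / 16 ^ (e + 1) / 2) := by
    intro r n
    set Q : ℝ[X] := V.comp (C (b : ℝ) * X + C (r : ℝ)) - C (V.eval (r : ℝ)) with hQ
    have hlin : (C (b : ℝ) * X + C (r : ℝ)).natDegree = 1 := Polynomial.natDegree_linear hb0
    have hQd : Q.natDegree = e + 1 := by
      rw [hQ, Polynomial.natDegree_sub_C, Polynomial.natDegree_comp, hlin, he, mul_one]
    have hQ0 : Q ≠ 0 := by
      intro h
      rw [h] at hQd
      simp at hQd
    have hfun : (fun i : ℕ => (gpart v d b r i : ℝ)) = fun k : ℕ => Q.eval (k : ℝ) := by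
      funext k
      rw [gpart_cast v d b r hb, hQ]
      simp only [Polynomial.eval_sub, Polynomial.eval_comp, Polynomial.eval_add,
        Polynomial.eval_mul, Polynomial.eval_C, Polynomial.eval_X]
      rw [hV]
      simp only [Polynomial.eval_finsetSum, Polynomial.eval_mul, Polynomial.eval_C,
        Polynomial.eval_pow, Polynomial.eval_X]
      rw [← Finset.sum_sub_distrib]
      refine Finset.sum_congr rfl fun j _ => ?_
      ring
    refine poly_count α (P.eval (r : ℝ)) ε hε hε1 (gpart v d b r) e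
      (Q.leadingCoeff * (Q.natDegree.factorial : ℝ)) ?_ ?_ n 0
    · have h1 : Q.leadingCoeff ≠ 0 := Polynomial.leadingCoeff_ne_zero.2 hQ0
      have h2 : (0 : ℝ) < Q.natDegree.factorial := by positivity
      exact mul_ne_zero h1 h2.ne'
    · intro i
      rw [hfun, ← hQd]
      exact dif_iter_poly Q i
  -- counting
  have hN1 : 1 ≤ N := by nlinarith
  have hbleN : b ≤ N := by nlinarith
  set n := N / b + 1 with hn
  have hfib : ((Finset.range N).filter (fun l : ℕ => ¬ Good ε α (P.eval (l : ℝ)))).card ≤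
      ∑ r ∈ range b, ((Finset.Ico 0 (0 + n)).filter
      (fun i => ¬ Good ε α (P.eval (r : ℝ) + gpart v d b r i * α))).card := by
    rw [Finset.card_eq_sum_card_fiberwise (f := fun l => l % b) (t := range b)
      (fun l _ => by
        simp only [Finset.coe_range, Set.mem_Iio]
        exact Nat.mod_lt _ (by omega))]
    refine Finset.sum_le_sum fun r _ => ?_
    refine Finset.card_le_card_of_injOn (fun l => l / b) ?_ ?_
    · intro l hl
      simp only [Finset.coe_filter, Finset.mem_filter, Finset.mem_range, Set.mem_ofPred_eq,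
        Finset.mem_Ico] at hl ⊢
      obtain ⟨⟨hlN, hbad⟩, hr⟩ := hl
      refine ⟨⟨Nat.zero_le _, ?_⟩, ?_⟩
      · rw [hn, zero_add]
        exact Nat.lt_succ_of_le (Nat.div_le_div_right hlN.le)
      · intro hg
        apply hbad
        have := hgood r (l / b) hg
        have e2 : b * (l / b) + r = l := by
          rw [← hr]; exact Nat.div_add_mod l b
        rwa [e2] at this
    · intro l hl l' hl' heq
      simp only [Finset.coe_filter, Finset.mem_filter, Finset.mem_range, Set.mem_ofPred_eq] at hl hl'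
      have h1 := Nat.div_add_mod l b
      have h2 := Nat.div_add_mod l' b
      simp only at heq
      rw [← h1, ← h2, hl.2, hl'.2, heq]
  have hNR : (1 : ℝ) ≤ N := by exact_mod_cast hN1
  have hbNR : (b : ℝ) ≤ N := by exact_mod_cast hbleN
  have hbbNR : (b : ℝ) * b ≤ N := by exact_mod_cast hbN
  have hε2 : 0 < ε ^ 2 := by positivity
  have hε4 : ε ^ 2 ≤ 1 / 4 := by nlinarith
  set κ := ε ^ 2 / 16 ^ d with hκ
  have hκ0 : 0 < κ := by positivity
  have h16 : (1 : ℝ) ≤ 16 ^ d := one_le_pow₀ (by norm_num)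
  have hκ4 : κ ≤ 1 / 4 := by
    rw [hκ, div_le_iff₀ (by positivity)]
    nlinarith
  have hκe : κ ≤ ε ^ 2 / 16 ^ (e + 1) := by
    rw [hκ]
    apply div_le_div_of_nonneg_left hε2.le (by positivity)
    exact pow_le_pow_right₀ (by norm_num) (by omega)
  have hnR : (1 : ℝ) ≤ n := by
    have : 1 ≤ n := by rw [hn]; exact Nat.le_add_left _ _
    exact_mod_cast this
  have hn2 : (n : ℝ) ≤ 2 * (N / b) := by
    have h1 : ((N / b : ℕ) : ℝ) ≤ N / b := Nat.cast_div_le
    have h2 : (1 : ℝ) ≤ N / b := by rw [le_div_iff₀ (by linarith)]; linarith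
    rw [hn]; push_cast; linarith
  have hterm : ∀ r ∈ range b, (((Finset.Ico 0 (0 + n)).filter
      (fun i => ¬ Good ε α (P.eval (r : ℝ) + gpart v d b r i * α))).card : ℝ) ≤
      4 * ((N : ℝ) / b) ^ (1 - κ / 2) := by
    intro r _
    refine (hcount r n).trans ?_
    have h1 : (n : ℝ) ^ (1 - ε ^ 2 / 16 ^ (e + 1) / 2) ≤ (n : ℝ) ^ (1 - κ / 2) :=
      Real.rpow_le_rpow_of_exponent_le hnR (by linarith)
    have h2 : (n : ℝ) ^ (1 - κ / 2) ≤ (2 * ((N : ℝ) / b)) ^ (1 - κ / 2) :=
      Real.rpow_le_rpow (by linarith) hn2 (by linarith)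
    have h3 : (2 * ((N : ℝ) / b)) ^ (1 - κ / 2) = 2 ^ (1 - κ / 2) * ((N : ℝ) / b) ^ (1 - κ / 2) :=
      Real.mul_rpow (by norm_num) (by positivity)
    have h4 : (2 : ℝ) ^ (1 - κ / 2) ≤ 2 := by
      calc (2 : ℝ) ^ (1 - κ / 2) ≤ 2 ^ (1 : ℝ) :=
            Real.rpow_le_rpow_of_exponent_le (by norm_num) (by linarith)
        _ = 2 := Real.rpow_one 2
    have h5 : 0 ≤ ((N : ℝ) / b) ^ (1 - κ / 2) := by positivity
    nlinarith
  calc (((Finset.range N).filter (fun l : ℕ => ¬ Good ε α (P.eval (l : ℝ)))).card : ℝ)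
      ≤ ((∑ r ∈ range b, ((Finset.Ico 0 (0 + n)).filter
      (fun i => ¬ Good ε α (P.eval (r : ℝ) + gpart v d b r i * α))).card : ℕ) : ℝ) := by
        exact_mod_cast hfib
    _ = ∑ r ∈ range b, (((Finset.Ico 0 (0 + n)).filter
      (fun i => ¬ Good ε α (P.eval (r : ℝ) + gpart v d b r i * α))).card : ℝ) := by
        push_cast; rfl
    _ ≤ ∑ r ∈ range b, 4 * ((N : ℝ) / b) ^ (1 - κ / 2) := Finset.sum_le_sum hterm
    _ = 4 * (b * ((N : ℝ) / b) ^ (1 - κ / 2)) := by
        rw [Finset.sum_const, Finset.card_range, nsmul_eq_mul]; ring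
    _ = 4 * ((b : ℝ) ^ (κ / 2) * (N : ℝ) ^ (1 - κ / 2)) := by
        rw [Real.div_rpow (by positivity) (by positivity)]
        have h6 : (b : ℝ) = (b : ℝ) ^ (κ / 2) * (b : ℝ) ^ (1 - κ / 2) := by
          rw [← Real.rpow_add (by linarith)]
          norm_num
        have h7 : (b : ℝ) ^ (1 - κ / 2) ≠ 0 := by positivity
        congr 1
        nth_rewrite 1 [h6]
        field_simp
    _ ≤ 4 * ((N : ℝ) ^ (κ / 4) * (N : ℝ) ^ (1 - κ / 2)) := by
        have h8 : (b : ℝ) ^ (κ / 2) = ((b : ℝ) * b) ^ (κ / 4) := by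
          rw [Real.mul_rpow (by positivity) (by positivity), ← Real.rpow_add (by linarith)]
          congr 1
          ring
        have h9 : (b : ℝ) ^ (κ / 2) ≤ (N : ℝ) ^ (κ / 4) := by
          rw [h8]
          exact Real.rpow_le_rpow (by positivity) hbbNR (by positivity)
        gcongr
    _ = 4 * (N : ℝ) ^ (1 - κ / 4) := by
        rw [← Real.rpow_add (by linarith)]
        congr 2
        ring

end Pool.Agent.KS6_31
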