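import Mathlib
import Pool.Agent.KS6_31.WeylA
import Pool.Graph.R_seed8.Results.MP_0ea415_nt.ProgressionsPowerSaving
import Pool.Graph.R_seed8.Results.MP_0ea415_nt.ShortProgressions

set_option autoImplicit false

/-! # Littlewood's conjecture along polynomial sequences with an irrational coefficient -/

open Filter Topology Finset Polynomial

namespace Pool.Agent.KS6_31

lemma good_of_lib {ε α β : ℝ}
    (h : Pool.Agent.Results.MP_0ea415_nt.ProgressionsPowerSaving.Good ε α β 0) : Good ε α β := by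
  unfold Pool.Agent.Results.MP_0ea415_nt.ProgressionsPowerSaving.Good at h
  simpa [Good] using h

lemma good_of_lib' {ε α β : ℝ}
    (h : Pool.Agent.Results.MP_0ea415_nt.ShortProgressions.Good ε α β 0) : Good ε α β := by
  unfold Pool.Agent.Results.MP_0ea415_nt.ShortProgressions.Good at h
  simpa [Good] using h

open Classical in
theorem weyl (d : ℕ) : ∃ c C : ℝ, 0 < c ∧ 0 < C ∧ ∀ ε : ℝ, 0 < ε → ε ≤ 1 / 2 → ∀ (α : ℝ) (P : ℝ[X]),
    P.natDegree ≤ d → (∃ j, 1 ≤ j ∧ Irrational (P.coeff j)) → ∀ N : ℕ, 1 ≤ N →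
      (((Finset.range N).filter (fun l : ℕ => ¬ Good ε α (P.eval (l : ℝ)))).card : ℝ) ≤
        C / ε * (N : ℝ) ^ (1 - c * ε ^ 2) := by
  obtain ⟨c₁, C₁, hc₁, hC₁, hlib⟩ :=
    Pool.Agent.Results.MP_0ea415_nt.ProgressionsPowerSaving.result d
  have h16 : (0 : ℝ) < 16 ^ d := by positivity
  refine ⟨min (min c₁ 1 / 2) (1 / (4 * 16 ^ d)), 2 * C₁ + 4, by positivity, by positivity, ?_⟩
  intro ε hε hε1 α P hP hirr N hN
  set c := min (min c₁ 1 / 2) (1 / (4 * 16 ^ d)) with hc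
  have hc0 : 0 < c := by positivity
  have hNR : (1 : ℝ) ≤ N := by exact_mod_cast hN
  have hε2 : 0 < ε ^ 2 := by positivity
  have hε4 : ε ^ 2 ≤ 1 / 4 := by nlinarith
  have hpw : 0 ≤ (N : ℝ) ^ (1 - c * ε ^ 2) := by positivity
  by_cases hα : Irrational α
  swap
  · obtain ⟨a, ha⟩ := not_not.1 hα
    subst ha
    have h0 : ((Finset.range N).filter (fun l : ℕ => ¬ Good ε (a : ℝ) (P.eval (l : ℝ)))) = ∅ := by
      apply Finset.filter_false_of_mem
      intro l _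
      exact not_not.2 (good_of_rat hε a)
    rw [h0, Finset.card_empty, Nat.cast_zero]
    positivity
  set B := Nat.sqrt N with hB
  have hB1 : 1 ≤ B := Nat.sqrt_pos.2 hN
  have hBR : (1 : ℝ) ≤ B := by exact_mod_cast hB1
  have hBB : B * B ≤ N := Nat.sqrt_le N
  have hBN : B ≤ N := Nat.sqrt_le_self N
  by_cases hcase : ∀ b : ℕ, 1 ≤ b → b ≤ B → ∃ j, 1 ≤ j ∧ ∀ u v : ℤ, (b : ℝ) * P.coeff j ≠ u + v * α
  · have h1 := (hlib ε hε hε1 α).1 P hP N B hB1 hBN hcase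
    have h2 : (((Finset.range N).filter (fun l : ℕ => ¬ Good ε α (P.eval (l : ℝ)))).card : ℝ) ≤
        (((Finset.range N).filter (fun l : ℕ => ¬ ∀ γ : ℝ,
          Pool.Agent.Results.MP_0ea415_nt.ProgressionsPowerSaving.Good ε α
            (P.eval (l : ℝ)) γ)).card : ℝ) := by
      exact_mod_cast Finset.card_le_card (fun l hl => by
        simp only [Finset.mem_filter] at hl ⊢
        exact ⟨hl.1, fun h => hl.2 (good_of_lib (h 0))⟩)
    refine h2.trans (h1.trans ?_)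
    -- the exponent
    set c' := min c₁ 1 with hc'
    have hc'0 : 0 < c' := by positivity
    have hc'1 : c' ≤ 1 := min_le_right _ _
    have hlog0 : 0 < Real.log (1 / ε) := by
      apply Real.log_pos
      rw [lt_div_iff₀ hε]
      linarith
    have hexp : c' * ε ^ 2 ≤ c₁ * ε / Real.log (1 / ε) := by
      rw [le_div_iff₀ hlog0]
      have h3 : Real.log (1 / ε) ≤ 1 / ε := by
        have := Real.log_le_sub_one_of_pos (show 0 < 1 / ε by positivity)
        linarith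
      have h4 : ε * Real.log (1 / ε) ≤ 1 := by
        calc ε * Real.log (1 / ε) ≤ ε * (1 / ε) := by gcongr
          _ = 1 := by field_simp
      calc c' * ε ^ 2 * Real.log (1 / ε) = c' * ε * (ε * Real.log (1 / ε)) := by ring
        _ ≤ c' * ε * 1 := by gcongr
        _ ≤ c₁ * ε * 1 := by gcongr; exact min_le_left _ _
        _ = c₁ * ε := by ring
    have hBhalf : (N : ℝ) ^ (1 / 2 : ℝ) ≤ 2 * B := by
      have h5 : N < (B + 1) * (B + 1) := Nat.lt_succ_sqrt N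
      have h6 : (N : ℝ) ≤ ((B : ℝ) + 1) * (B + 1) := by exact_mod_cast h5.le
      rw [← Real.sqrt_eq_rpow]
      calc Real.sqrt N ≤ Real.sqrt (((B : ℝ) + 1) * (B + 1)) := Real.sqrt_le_sqrt h6
        _ = (B : ℝ) + 1 := Real.sqrt_mul_self (by positivity)
        _ ≤ 2 * B := by linarith
    have hBpow : (B : ℝ) ^ (-(c₁ * ε / Real.log (1 / ε))) ≤ 2 * (N : ℝ) ^ (-(c' * ε ^ 2 / 2)) := by
      calc (B : ℝ) ^ (-(c₁ * ε / Real.log (1 / ε))) ≤ (B : ℝ) ^ (-(c' * ε ^ 2)) :=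
            Real.rpow_le_rpow_of_exponent_le hBR (by linarith)
        _ = 2 ^ (c' * ε ^ 2) * (2 * (B : ℝ)) ^ (-(c' * ε ^ 2)) := by
            rw [Real.mul_rpow (by norm_num) (by positivity), ← mul_assoc,
              ← Real.rpow_add (by norm_num)]
            simp
        _ ≤ 2 * ((N : ℝ) ^ (1 / 2 : ℝ)) ^ (-(c' * ε ^ 2)) := by
            have h7 : (2 : ℝ) ^ (c' * ε ^ 2) ≤ 2 := by
              calc (2 : ℝ) ^ (c' * ε ^ 2) ≤ 2 ^ (1 : ℝ) := by
                    apply Real.rpow_le_rpow_of_exponent_le (by norm_num)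
                    nlinarith
                _ = 2 := Real.rpow_one 2
            have h8 : (2 * (B : ℝ)) ^ (-(c' * ε ^ 2)) ≤ ((N : ℝ) ^ (1 / 2 : ℝ)) ^ (-(c' * ε ^ 2)) := by
              apply Real.rpow_le_rpow_of_nonpos (by positivity) hBhalf
              have : 0 ≤ c' * ε ^ 2 := by positivity
              linarith
            gcongr
        _ = 2 * (N : ℝ) ^ (-(c' * ε ^ 2 / 2)) := by
            rw [← Real.rpow_mul (by positivity)]
            congr 2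
            ring
    have hcc : c * ε ^ 2 ≤ c' * ε ^ 2 / 2 := by
      have : c ≤ c' / 2 := min_le_left _ _
      nlinarith
    calc C₁ / ε * N * (B : ℝ) ^ (-(c₁ * ε / Real.log (1 / ε)))
        ≤ C₁ / ε * N * (2 * (N : ℝ) ^ (-(c' * ε ^ 2 / 2))) := by gcongr
      _ = 2 * C₁ / ε * ((N : ℝ) ^ (1 : ℝ) * (N : ℝ) ^ (-(c' * ε ^ 2 / 2))) := by
          rw [Real.rpow_one]; ring
      _ = 2 * C₁ / ε * (N : ℝ) ^ (1 - c' * ε ^ 2 / 2) := by
          rw [← Real.rpow_add (by linarith)]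
          congr 2
      _ ≤ (2 * C₁ + 4) / ε * (N : ℝ) ^ (1 - c * ε ^ 2) := by
          have h9 : (N : ℝ) ^ (1 - c' * ε ^ 2 / 2) ≤ (N : ℝ) ^ (1 - c * ε ^ 2) :=
            Real.rpow_le_rpow_of_exponent_le hNR (by linarith)
          gcongr
          linarith
  · push Not at hcase
    obtain ⟨b, hb1, hbB, hbj⟩ := hcase
    have hbN : b * b ≤ N := (Nat.mul_le_mul hbB hbB).trans hBB
    refine (case_two d α ε hε hε1 P hP b hb1 hbj hirr N hbN).trans ?_
    have hcc : c * ε ^ 2 ≤ ε ^ 2 / 16 ^ d / 4 := by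
      have h1 : c ≤ 1 / (4 * 16 ^ d) := min_le_right _ _
      calc c * ε ^ 2 ≤ 1 / (4 * 16 ^ d) * ε ^ 2 := by gcongr
        _ = ε ^ 2 / 16 ^ d / 4 := by field_simp
    have h9 : (N : ℝ) ^ (1 - ε ^ 2 / 16 ^ d / 4) ≤ (N : ℝ) ^ (1 - c * ε ^ 2) :=
      Real.rpow_le_rpow_of_exponent_le hNR (by linarith)
    have h10 : 4 ≤ (2 * C₁ + 4) / ε := by
      rw [le_div_iff₀ hε]
      nlinarith
    calc 4 * (N : ℝ) ^ (1 - ε ^ 2 / 16 ^ d / 4) ≤ 4 * (N : ℝ) ^ (1 - c * ε ^ 2) := by gcongr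
      _ ≤ (2 * C₁ + 4) / ε * (N : ℝ) ^ (1 - c * ε ^ 2) := by gcongr

/-- progressions with difference `(u + v α) / b`, `v > 0` -/
lemma short_pos (ε : ℝ) (hε : 0 < ε) (hε1 : ε ≤ 1 / 2) (α β θ : ℝ) (N b : ℕ) (_hb : 1 ≤ b)
    (hb2 : 4 * ε ^ 2 * b ≤ 1) (hN : 1 / ε ^ 4 ≤ (N : ℝ)) (u v : ℤ) (hv : 0 < v)
    (h : (b : ℝ) * θ = u + v * α) : ∃ l < N, Good ε α (β + l * θ) := by
  have hε2 : 0 < ε ^ 2 := by positivity
  have hε4 : ε ^ 2 ≤ 1 / 4 := by nlinarith
  set K := ⌈10 / 3 / ε ^ 2⌉₊ with hK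
  have hK1 : 10 / 3 / ε ^ 2 ≤ K := Nat.le_ceil _
  have hK2 : (K : ℝ) < 10 / 3 / ε ^ 2 + 1 := Nat.ceil_lt_add_one (by positivity)
  have hK0 : (0 : ℝ) < K := lt_of_lt_of_le (by positivity) hK1
  have hvR : (0 : ℝ) < v := by exact_mod_cast hv
  obtain ⟨y, z, hy, hz, hyz, hgood⟩ := shear_interval α β ε 0 (K * v) hε hε1 (by positivity)
  have hlen : (v : ℝ) ≤ z - y := by
    rw [hyz]
    have : 1 ≤ 3 / 10 * ε ^ 2 * K := by
      calc (1 : ℝ) = 3 / 10 * ε ^ 2 * (10 / 3 / ε ^ 2) := by field_simp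
        _ ≤ 3 / 10 * ε ^ 2 * K := by gcongr
    nlinarith
  set k : ℤ := ⌈y / v⌉ with hk
  have hk1 : y / v ≤ k := Int.le_ceil _
  have hk2 : (k : ℝ) < y / v + 1 := Int.ceil_lt_add_one _
  have hk3 : y ≤ k * v := by rwa [div_le_iff₀ hvR] at hk1
  have hk4 : (k : ℝ) * v < y + v := by
    have : (k : ℝ) * v < (y / v + 1) * v := by gcongr
    have e : (y / v + 1) * v = y + v := by field_simp
    linarith
  have hk0 : 0 ≤ k := by
    have : (0 : ℝ) ≤ y / v := by positivity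
    have h1 : (0 : ℝ) ≤ k := by linarith
    exact_mod_cast h1
  have hkK : (k : ℝ) ≤ K := by
    have : (k : ℝ) * v ≤ K * v := by linarith
    exact le_of_mul_le_mul_right this hvR
  obtain ⟨k', hk'⟩ := Int.eq_ofNat_of_zero_le hk0
  have hk'R : (k : ℝ) = k' := by rw [hk']; simp
  refine ⟨b * k', ?_, ?_⟩
  · have hbR : (b : ℝ) ≤ 1 / (4 * ε ^ 2) := by
      rw [le_div_iff₀ (by positivity)]; linarith
    have h1 : (b : ℝ) * k' < 1 / ε ^ 4 := by
      calc (b : ℝ) * k' ≤ 1 / (4 * ε ^ 2) * K := by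
            rw [← hk'R]
            have : (0 : ℝ) ≤ k := by exact_mod_cast hk0
            gcongr
        _ < 1 / (4 * ε ^ 2) * (10 / 3 / ε ^ 2 + 1) := by gcongr
        _ = (5 / 6 + ε ^ 2 / 4) / ε ^ 4 := by field_simp; ring
        _ ≤ 1 / ε ^ 4 := by
            gcongr
            linarith
    have h2 : ((b * k' : ℕ) : ℝ) < N := by push_cast; linarith
    exact_mod_cast h2
  · have h1 := hgood (k * v) (by push_cast; linarith) (by push_cast; linarith)
    have h2 := good_add_int (k * u) h1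
    have e : β + ((k * v : ℤ) : ℝ) * α + ((k * u : ℤ) : ℝ) = β + ((b * k' : ℕ) : ℝ) * θ := by
      push_cast
      rw [← hk'R]
      linear_combination (-(k : ℝ)) * h
    rwa [e] at h2

theorem short (ε : ℝ) (hε : 0 < ε) (hε1 : ε ≤ 1 / 2) (α β θ : ℝ) (hθ : Irrational θ) (N : ℕ)
    (hN : 1 / ε ^ 4 ≤ (N : ℝ)) : ∃ l < N, Good ε α (β + l * θ) := by
  have hε2 : 0 < ε ^ 2 := by positivity
  have hε4 : ε ^ 2 ≤ 1 / 4 := by nlinarith
  by_cases h : ∀ b : ℕ, 1 ≤ b → 4 * ε ^ 2 * b ≤ 1 → ∀ u v : ℤ, (b : ℝ) * θ ≠ u + v * α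
  · obtain ⟨l, hl, hg⟩ := Pool.Agent.Results.MP_0ea415_nt.ShortProgressions.result ε (2 * ε) hε hε1
      (by positivity) N (by
        refine le_trans ?_ hN
        rw [show (1 / (2 * ε) + 2) / (4 * ε ^ 2) + 1 / (2 * ε) =
          (ε / 8 + ε ^ 2 / 2 + ε ^ 3 / 2) / ε ^ 4 by field_simp; ring]
        gcongr
        have : ε ^ 3 ≤ 1 / 8 := by
          calc ε ^ 3 ≤ (1 / 2) ^ 3 := by gcongr
            _ = 1 / 8 := by norm_num
        linarith) α β θ 0 (Or.inl le_rfl) h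
    exact ⟨l, hl, good_of_lib' hg⟩
  · push Not at h
    obtain ⟨b, hb, hb2, u, v, huv⟩ := h
    have hb0 : (b : ℝ) ≠ 0 := by
      have : b ≠ 0 := by omega
      exact_mod_cast this
    rcases lt_trichotomy v 0 with hv | hv | hv
    · obtain ⟨l, hl, hg⟩ := short_pos ε hε hε1 (-α) β θ N b hb hb2 hN u (-v) (by omega) (by
        rw [huv]; push_cast; ring)
      exact ⟨l, hl, good_neg hg⟩
    · exfalso
      rw [hv] at huv
      have h2 : θ = ((u : ℚ) / (b : ℚ) : ℚ) := by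
        push_cast
        field_simp
        push_cast at huv
        linarith
      rw [h2] at hθ
      exact Rat.not_irrational _ hθ
    · exact short_pos ε hε hε1 α β θ N b hb hb2 hN u v hv huv

/-- sequences of shears -/
theorem sequences (ε : ℝ) (hε : 0 < ε) (hε1 : ε ≤ 1 / 2) (α β : ℝ) (s : ℕ → ℤ)
    (hs : Tendsto s atTop atTop)
    (hr : ∀ᶠ j in atTop, (s (j + 1) : ℝ) ≤ (1 + ε ^ 2 / 4) * s j) :
    ∃ᶠ j in atTop, Good ε α (β + s j * α) := by
  rw [frequently_atTop]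
  intro n
  have hε2 : 0 < ε ^ 2 := by positivity
  obtain ⟨J, hJ⟩ := eventually_atTop.1 (hr.and (hs.eventually_ge_atTop 1))
  set j₀ := max J n with hj₀
  have hx : (1 : ℝ) ≤ s j₀ := by
    have := (hJ j₀ (le_max_left _ _)).2
    exact_mod_cast this
  obtain ⟨y, z, hy, hz, hyz, hgood⟩ := shear_interval α β ε (s j₀) (5 * s j₀) hε hε1 (by positivity)
  have hex : ∃ j, y ≤ (s (j₀ + j) : ℝ) := by
    obtain ⟨j, hj1, hj2⟩ := ((hs.eventually_ge_atTop ⌈y⌉).and (eventually_ge_atTop j₀)).exists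
    refine ⟨j - j₀, ?_⟩
    have e : j₀ + (j - j₀) = j := by omega
    rw [e]
    exact (Int.le_ceil y).trans (by exact_mod_cast hj1)
  classical
  set j₁ := Nat.find hex with hj₁
  have hj₁s : y ≤ (s (j₀ + j₁) : ℝ) := Nat.find_spec hex
  refine ⟨j₀ + j₁, (le_max_right J n).trans (Nat.le_add_right _ _), hgood _ hj₁s ?_⟩
  rcases Nat.eq_zero_or_pos j₁ with h0 | h0
  · rw [h0, add_zero]
    have : 0 ≤ z - y := by rw [hyz]; positivity
    rw [h0, add_zero] at hj₁s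
    linarith
  · have h5 : ¬ (y ≤ (s (j₀ + (j₁ - 1)) : ℝ)) := Nat.find_min hex (by omega)
    have h6 := (hJ (j₀ + (j₁ - 1)) ((le_max_left J n).trans (Nat.le_add_right _ _))).1
    have e : j₀ + (j₁ - 1) + 1 = j₀ + j₁ := by omega
    rw [e] at h6
    have h7 : (1 + ε ^ 2 / 4) * (s (j₀ + (j₁ - 1)) : ℝ) ≤ (1 + ε ^ 2 / 4) * y := by
      gcongr
      linarith
    have h8 : y ≤ 6 * s j₀ := by
      have : 0 ≤ z - y := by rw [hyz]; positivity
      linarith
    nlinarith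

end Pool.Agent.KS6_31
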